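import Mathlib
import Pool.Agent.Lib.MP_a3366f_nt.Q.Root
import Pool.Agent.Lib.MP_a3366f_nt.Q.Mod
import Pool.Agent.Lib.MP_a3366f_nt.ZMain

/-!
Definitions and basic tools for the count of odd and even values in all arithmetic progressions.
-/

open Finset

namespace Pool.Agent.Lib.MP_a3366f_nt.Quad.Prog

open Ker Zt

theorem algebraMap_LO (x : Kb) : algebraMap Kb LO x = HahnSeries.C x := by
  rw [HahnSeries.algebraMap_apply', PowerSeries.algebraMap_apply, HahnSeries.ofPowerSeries_C]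
  rfl

theorem coeff_alg_mul (x : Kb) (f : LO) (n : ℤ) :
    (algebraMap Kb LO x * f).coeff n = x * f.coeff n := by
  rw [algebraMap_LO, HahnSeries.C_mul_eq_smul, HahnSeries.coeff_smul, smul_eq_mul]

/-- The part of `f` with exponents congruent to `a` modulo `2 ^ k`. -/
noncomputable def cmpO (k : ℕ) (a : ℤ) : LO →+ LO where
  toFun f :=
    { coeff := fun n => if n ≡ a [ZMOD 2 ^ k] then f.coeff n else 0
      isPWO_support' := f.isPWO_support.mono fun n hn h => hn (by simp [h]) }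
  map_zero' := by ext n; simp
  map_add' f g := by
    ext n
    simp only [HahnSeries.coeff_add]
    split_ifs <;> simp

theorem coeff_cmpO (k : ℕ) (a : ℤ) (f : LO) (n : ℤ) :
    (cmpO k a f).coeff n = if n ≡ a [ZMOD 2 ^ k] then f.coeff n else 0 := rfl

/-- All exponents of `f` are congruent to `a` modulo `2 ^ k`. -/
def ClsO (k : ℕ) (a : ℤ) (f : LO) : Prop := ∀ n, f.coeff n ≠ 0 → n ≡ a [ZMOD 2 ^ k]

theorem cls_cmpO (k : ℕ) (a : ℤ) (f : LO) : ClsO k a (cmpO k a f) := fun n hn => by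
  by_contra h
  exact hn (by rw [coeff_cmpO, if_neg h])

theorem cmpO_congr {k : ℕ} {a b : ℤ} (h : a ≡ b [ZMOD 2 ^ k]) (f : LO) :
    cmpO k a f = cmpO k b f := by
  ext n
  rw [coeff_cmpO, coeff_cmpO]
  exact if_congr ⟨fun h1 => h1.trans h, fun h1 => h1.trans h.symm⟩ rfl rfl

theorem ClsO.congr {k : ℕ} {a b : ℤ} {f : LO} (hf : ClsO k a f) (h : a ≡ b [ZMOD 2 ^ k]) :
    ClsO k b f := fun n hn => (hf n hn).trans h

theorem ClsO.mono {k l : ℕ} {a : ℤ} {f : LO} (hf : ClsO k a f) (h : l ≤ k) : ClsO l a f :=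
  fun n hn => (hf n hn).of_dvd (pow_dvd_pow 2 h)

theorem ClsO.cmp_eq {k : ℕ} {a b : ℤ} {f : LO} (hf : ClsO k b f) (h : b ≡ a [ZMOD 2 ^ k]) :
    cmpO k a f = f := by
  ext n
  rw [coeff_cmpO]
  split_ifs with h1
  · rfl
  · by_contra h2
    exact h1 ((hf n (Ne.symm h2)).trans h)

theorem ClsO.cmp_ne {k : ℕ} {a b : ℤ} {f : LO} (hf : ClsO k b f) (h : ¬ b ≡ a [ZMOD 2 ^ k]) :
    cmpO k a f = 0 := by
  ext n
  rw [coeff_cmpO]
  split_ifs with h1
  · by_contra h2
    exact h ((hf n h2).symm.trans h1)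
  · rfl

theorem ClsO.mul {k : ℕ} {a b : ℤ} {f g : LO} (hf : ClsO k a f) (hg : ClsO k b g) :
    ClsO k (a + b) (f * g) := fun n hn => by
  obtain ⟨x, y, hx, hy, rfl⟩ := exists_of_coeff_mul' hn
  exact (hf x hx).add (hg y hy)

theorem clsO_alg (k : ℕ) (x : Kb) : ClsO k 0 (algebraMap Kb LO x) := fun n hn => by
  rw [algebraMap_LO, HahnSeries.C_apply] at hn
  by_contra h
  exact hn (HahnSeries.coeff_single_of_ne fun h1 => h (by rw [h1]))

theorem ClsO.pow {k : ℕ} {a : ℤ} {f : LO} (hf : ClsO k a f) (m : ℕ) : ClsO k (m * a) (f ^ m) := by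
  induction m with
  | zero => simpa using clsO_alg k 1
  | succ m ih =>
    rw [pow_succ]
    exact (ih.mul hf).congr (by push_cast; rw [add_mul, one_mul])

theorem ClsO.unique {k : ℕ} {a b : ℤ} {f : LO} (hf : ClsO k a f) (hg : ClsO k b f) (h : f ≠ 0) :
    a ≡ b [ZMOD 2 ^ k] :=
  have h1 := mt HahnSeries.coeff_order_eq_zero.1 h
  (hf _ h1).symm.trans (hg _ h1)

theorem sum_cmpO (k : ℕ) (f : LO) : ∑ a ∈ Ico (0 : ℤ) (2 ^ k), cmpO k a f = f := by
  ext n
  have h0 : (0 : ℤ) < 2 ^ k := by positivity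
  rw [HahnSeries.coeff_sum, sum_eq_single_of_mem (n % 2 ^ k), coeff_cmpO,
    if_pos (Int.mod_modEq n _).symm]
  · exact mem_Ico.2 ⟨Int.emod_nonneg _ h0.ne', Int.emod_lt_of_pos _ h0⟩
  · intro b hb hne
    rw [coeff_cmpO, if_neg]
    intro h
    rw [mem_Ico] at hb
    exact hne (by rw [h, Int.emod_eq_of_lt hb.1 hb.2])

theorem cmpO_mul {k : ℕ} {b : ℤ} {g : LO} (hg : ClsO k b g) (a : ℤ) (f : LO) :
    cmpO k (a + b) (f * g) = cmpO k a f * g := by
  have h1 : f * g = cmpO k a f * g + (f - cmpO k a f) * g := by ring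
  rw [h1, map_add, ((cls_cmpO k a f).mul hg).cmp_eq rfl, add_eq_left]
  ext n
  rw [coeff_cmpO]
  split_ifs with h
  · by_contra h2
    obtain ⟨x, y, hx, hy, rfl⟩ := exists_of_coeff_mul' h2
    have h3 : x ≡ a [ZMOD 2 ^ k] := (hg y hy).add_right_cancel h
    exact hx (by rw [HahnSeries.coeff_sub, coeff_cmpO, if_pos h3, sub_self])
  · rfl

theorem cmpO_alg_mul (k : ℕ) (a : ℤ) (x : Kb) (f : LO) :
    cmpO k a (algebraMap Kb LO x * f) = algebraMap Kb LO x * cmpO k a f := by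
  simpa [mul_comm] using cmpO_mul (clsO_alg k x) a f

theorem clsO_of_mul {k : ℕ} {a b : ℤ} {f g : LO} (hg : ClsO k b g) (h0 : g ≠ 0)
    (h : ClsO k (a + b) (f * g)) : ClsO k a f := by
  have h1 := cmpO_mul hg a f
  rw [h.cmp_eq rfl] at h1
  rw [mul_right_cancel₀ h0 h1]
  exact cls_cmpO k a f

theorem coeff_sqO (f : LO) (n : ℤ) :
    (f ^ 2).coeff n = if 2 ∣ n then f.coeff (n / 2) ^ 2 else 0 := by
  classical
  rw [sq, coeff_mul_fin' f f n (Icc f.order (n - f.order)) fun m h1 h2 => by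
    have := (ge_order f).le h1
    have := (ge_order f).le h2
    rw [mem_Icc]
    omega]
  rw [← sum_filter_add_sum_filter_not _ fun m => 2 * m = n,
    sum_involution (s := (Icc f.order (n - f.order)).filter fun m => ¬ 2 * m = n)
      (fun m _ => n - m), add_zero]
  · split_ifs with h
    · obtain ⟨m, rfl⟩ := h
      rw [Int.mul_ediv_cancel_left _ two_ne_zero]
      by_cases h1 : f.order ≤ m
      · rw [sum_eq_single_of_mem m, show 2 * m - m = m by ring, sq]
        · exact mem_filter.2 ⟨mem_Icc.2 ⟨h1, by omega⟩, rfl⟩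
        · exact fun b hb h2 => absurd (mem_filter.1 hb).2 (by omega)
      · rw [ge_order f m (by omega), sum_eq_zero fun b hb => by
          have := (mem_filter.1 hb).2
          have := (mem_Icc.1 (mem_filter.1 hb).1).1
          omega]
        simp
    · exact sum_eq_zero fun b hb => absurd ⟨b, (mem_filter.1 hb).2.symm⟩ h
  · intro a _
    rw [sub_sub_cancel, mul_comm, CharTwo.add_self_eq_zero]
  · intro a ha _ h
    exact (mem_filter.1 ha).2 (by omega)
  · intro a ha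
    simp only [mem_filter, mem_Icc] at ha ⊢
    omega
  · intro a _
    exact sub_sub_cancel _ _

theorem clsO_of_sq {k : ℕ} {f : LO} (hf : ClsO (k + 1) 0 (f ^ 2)) : ClsO k 0 f := fun n hn => by
  have h := hf (2 * n) (by
    rw [coeff_sqO, if_pos (dvd_mul_right _ _), Int.mul_ediv_cancel_left _ two_ne_zero]
    exact pow_ne_zero _ hn)
  rw [Int.modEq_zero_iff_dvd, pow_succ'] at h
  exact Int.modEq_zero_iff_dvd.2 (Int.dvd_of_mul_dvd_mul_left two_ne_zero h)

theorem clsO_pow_two_pow (k : ℕ) (f : LO) : ClsO k 0 (f ^ 2 ^ k) := by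
  induction k with
  | zero => exact fun n _ => by simpa using Int.modEq_one
  | succ k ih =>
    intro n hn
    rw [pow_succ, pow_mul, coeff_sqO] at hn
    split_ifs at hn with h
    · obtain ⟨m, rfl⟩ := h
      rw [Int.mul_ediv_cancel_left _ two_ne_zero] at hn
      rw [pow_succ']
      simpa using (ih m (ne_zero_pow two_ne_zero hn)).mul_left' (c := 2)
    · exact absurd rfl hn

theorem clsO_ph {k : ℕ} {a : ℤ} {f : L2} (hf : Cls k a f) (ζ : Kbˣ) {l : ℕ} (hl : l ≠ 0) :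
    ClsO k (l * a) (ph ζ l f) := fun n hn => by
  obtain ⟨m, rfl, h⟩ := ph_ne hl hn
  exact (hf m h).mul_left _

theorem cmpO_ph (k : ℕ) (a : ℤ) (ζ : Kbˣ) {l : ℕ} (hl : Odd l) (f : L2) :
    cmpO k (l * a) (ph ζ l f) = ph ζ l (cmp k a f) := by
  ext n
  have hl0 := hl.pos.ne'
  rw [coeff_cmpO]
  by_cases h : (l : ℤ) ∣ n
  · obtain ⟨m, rfl⟩ := h
    rw [coeff_ph_mul ζ hl0, coeff_ph_mul ζ hl0, coeff_cmp]
    by_cases h1 : m ≡ a [ZMOD 2 ^ k]
    · rw [if_pos h1, if_pos (h1.mul_left _)]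
    · rw [if_neg h1, if_neg, map_zero, mul_zero]
      intro h2
      rw [mul_comm, mul_comm (l : ℤ)] at h2
      exact h1 (cancel_odd (by exact_mod_cast hl) h2)
  · simp only [coeff_ph ζ hl0, if_neg h, ite_self]

/-- The part of `f` with exponents congruent to `b` modulo `M`. -/
noncomputable def cA (M : ℕ) (b : ℤ) (f : L2) : L2 where
  coeff n := if n ≡ b [ZMOD M] then f.coeff n else 0
  isPWO_support' := f.isPWO_support.mono fun n hn h => hn (by simp [h])

theorem coeff_cA (M : ℕ) (b : ℤ) (f : L2) (n : ℤ) :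
    (cA M b f).coeff n = if n ≡ b [ZMOD M] then f.coeff n else 0 := rfl

/-- The substitution `X ↦ η X` as a function. -/
noncomputable def twOF (η : Kbˣ) (f : LO) : LO where
  coeff n := ((η ^ n : Kbˣ) : Kb) * f.coeff n
  isPWO_support' := f.isPWO_support.mono fun n hn h => hn (by simp [h])

theorem coeff_twOF (η : Kbˣ) (f : LO) (n : ℤ) :
    (twOF η f).coeff n = ((η ^ n : Kbˣ) : Kb) * f.coeff n := rfl

/-- The substitution `X ↦ η X`. -/
noncomputable def twO (η : Kbˣ) : LO →+* LO where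
  toFun := twOF η
  map_one' := by
    ext n
    rw [coeff_twOF, HahnSeries.coeff_one]
    split_ifs with h <;> simp [h]
  map_zero' := by
    ext n
    simp [coeff_twOF]
  map_add' f g := by
    ext n
    simp [coeff_twOF, mul_add]
  map_mul' f g := by
    ext n
    have k : ∀ m, f.coeff m ≠ 0 → g.coeff (n - m) ≠ 0 → m ∈ Icc f.order (n - g.order) :=
      fun m h1 h2 => by
        have := (ge_order f).le h1
        have := (ge_order g).le h2
        rw [mem_Icc]
        omega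
    rw [coeff_twOF, coeff_mul_fin' f g n _ k, coeff_mul_fin' _ _ n _ fun m h1 h2 =>
      k m (right_ne_zero_of_mul h1) (right_ne_zero_of_mul h2), mul_sum]
    refine sum_congr rfl fun m _ => ?_
    have : η ^ n = η ^ m * η ^ (n - m) := by rw [← zpow_add, add_sub_cancel]
    rw [coeff_twOF, coeff_twOF, this, Units.val_mul]
    ring

theorem coeff_twO (η : Kbˣ) (f : LO) (n : ℤ) :
    (twO η f).coeff n = ((η ^ n : Kbˣ) : Kb) * f.coeff n := rfl

theorem twO_alg (η : Kbˣ) (x : Kb) : twO η (algebraMap Kb LO x) = algebraMap Kb LO x := by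
  ext n
  rw [coeff_twO, algebraMap_LO, HahnSeries.C_apply]
  by_cases h : n = 0
  · simp [h]
  · rw [HahnSeries.coeff_single_of_ne h, mul_zero]

theorem ClsO.twO {k : ℕ} {a : ℤ} {f : LO} (hf : ClsO k a f) (η : Kbˣ) : ClsO k a (twO η f) :=
  fun n hn => hf n (right_ne_zero_of_mul hn)

theorem twO_ph (η ζ : Kbˣ) {l : ℕ} (hl : l ≠ 0) (f : L2) :
    twO η (ph ζ l f) = ph (ζ * η ^ l) l f := by
  ext n
  rw [coeff_twO]
  by_cases h : (l : ℤ) ∣ n
  · obtain ⟨m, rfl⟩ := h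
    rw [coeff_ph_mul _ hl, coeff_ph_mul _ hl, mul_zpow, zpow_mul, zpow_natCast, Units.val_mul]
    ring
  · simp only [coeff_ph _ hl, if_neg h, mul_zero]

theorem V_ph (ζ : Kbˣ) {l m : ℕ} (hl : l ≠ 0) (hm : m ≠ 0) (f : L2) :
    V m (ph ζ l f) = ph ζ (m * l) f := by
  rw [ph, ph, RingHom.comp_apply, RingHom.comp_apply, V_V hm hl]

theorem ph_V' (ζ : Kbˣ) {a l : ℕ} (ha : a ≠ 0) (hl : l ≠ 0) (f : L2) :
    ph ζ l (V a f) = ph (ζ ^ a) (a * l) f := by
  have h1 : tw ζ (V a f) = V a (tw (ζ ^ a) f) := by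
    ext n
    change (twF ζ _).coeff n = (V a (twF (ζ ^ a) f)).coeff n
    by_cases h : (a : ℤ) ∣ n
    · obtain ⟨m, rfl⟩ := h
      rw [coeff_twF, coeff_V_mul ha, coeff_V_mul ha, coeff_twF, zpow_mul, zpow_natCast]
    · rw [coeff_twF, coeff_V_of_not_dvd ha _ h, coeff_V_of_not_dvd ha _ h, map_zero, mul_zero]
  rw [ph, ph, RingHom.comp_apply, RingHom.comp_apply, h1, V_V hl ha, mul_comm]

theorem sg_eq {c : ℕ} (hc : c = 1 ∨ c = 3) : sg c = V c s := by
  rw [sg, Dl, s, map_inv₀, V_S hc]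

theorem ph_sg {c : ℕ} (hc : c = 1 ∨ c = 3) (ζ : Kbˣ) {l : ℕ} (hl : l ≠ 0) :
    ph ζ l (sg c) = ph (ζ ^ c) (c * l) s := by
  rw [sg_eq hc, ph_V' ζ (by omega) hl]

theorem ph_s_inj {ζ ξ : Kbˣ} {l k : ℕ} (hl : l ≠ 0) (hk : k ≠ 0) (h : ph ζ l s = ph ξ k s) :
    l = k ∧ ζ = ξ := ph_inj hl hk (by rw [h])

/-- The base point. -/
noncomputable def uu (c A : ℕ) : LO := ph 1 (c * A) s

/-- Polynomials in the base point. -/
noncomputable abbrev AO (c A : ℕ) : Subalgebra Kb LO := Algebra.adjoin Kb {uu c A}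

/-- Rational functions in the base point. -/
noncomputable abbrev FO (c A : ℕ) : IntermediateField Kb LO := IntermediateField.adjoin Kb {uu c A}

/-- The substitution `X ↦ ζ X ^ l` is at distance `L` from the base point. -/
def Node (c A L : ℕ) (ζ : Kbˣ) (l : ℕ) : Prop :=
  L ∣ A ∧ ∃ d, d ∣ L ∧ l = A / L * d ^ 2 ∧ ζ ^ (c * (L / d)) = 1

theorem Node.odd {c A L l : ℕ} {ζ : Kbˣ} (hA : Odd A) (h : Node c A L ζ l) : Odd l := by
  obtain ⟨h1, d, h2, rfl, -⟩ := h
  exact (hA.of_dvd_nat (Nat.div_dvd_of_dvd h1)).mul (hA.of_dvd_nat (h2.trans h1)).pow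

theorem node_base (c A : ℕ) : Node c A 1 1 A := ⟨one_dvd _, 1, dvd_rfl, by simp, one_pow _⟩

theorem ph_base {c A : ℕ} (hc : c = 1 ∨ c = 3) (hA : Odd A) : ph 1 A (sg c) = uu c A := by
  rw [ph_sg hc 1 hA.pos.ne', one_pow, uu]

/-- The field generated by the theta series at all nodes. -/
noncomputable abbrev NN (c A : ℕ) : IntermediateField (FO c A) LO :=
  IntermediateField.adjoin (FO c A) {y | ∃ L ζ l, Node c A L ζ l ∧
    (y = ph ζ l (S c) ∨ ∃ n b, Odd b ∧ y = ph ζ l (Th c n b))}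

/-- Its automorphism group. -/
abbrev GG (c A : ℕ) := NN c A ≃ₐ[FO c A] NN c A

variable {c A : ℕ}

/-- The automorphism `g` sends `y` to `y'`. -/
def RelG (g : GG c A) (y y' : LO) : Prop := ∃ hy : y ∈ NN c A, (g ⟨y, hy⟩ : LO) = y'

section

variable {g h : GG c A} {x x' y y' z : LO}

theorem RelG.mem (h : RelG g x x') : x ∈ NN c A := h.1

theorem RelG.mem' (h : RelG g x x') : x' ∈ NN c A := h.2 ▸ (g ⟨x, h.1⟩).2

theorem ex_relG (g : GG c A) (hx : x ∈ NN c A) : ∃ x', RelG g x x' := ⟨_, hx, rfl⟩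

theorem RelG.add (h : RelG g x x') (h' : RelG g y y') : RelG g (x + y) (x' + y') :=
  ⟨add_mem h.1 h'.1, by
    rw [← h.2, ← h'.2, ← IntermediateField.coe_add, ← map_add]; rfl⟩

theorem RelG.mul (h : RelG g x x') (h' : RelG g y y') : RelG g (x * y) (x' * y') :=
  ⟨mul_mem h.1 h'.1, by
    rw [← h.2, ← h'.2, ← IntermediateField.coe_mul, ← map_mul]; rfl⟩

theorem RelG.inv (h : RelG g x x') : RelG g x⁻¹ x'⁻¹ :=
  ⟨inv_mem h.1, by rw [← h.2, ← IntermediateField.coe_inv, ← map_inv₀]; rfl⟩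

theorem FO_le (h : x ∈ FO c A) : x ∈ NN c A := (NN c A).algebraMap_mem ⟨x, h⟩

theorem AO_le (h : x ∈ AO c A) : x ∈ FO c A := IntermediateField.algebra_adjoin_le_adjoin _ _ h

theorem uu_AO (c A : ℕ) : uu c A ∈ AO c A := Algebra.self_mem_adjoin_singleton _ _

theorem relG_FO (g : GG c A) (h : x ∈ FO c A) : RelG g x x :=
  ⟨FO_le h, congrArg Subtype.val (g.commutes ⟨x, h⟩)⟩

theorem relG_alg (g : GG c A) (a : Kb) : RelG g (algebraMap Kb LO a) (algebraMap Kb LO a) :=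
  relG_FO g ((FO c A).algebraMap_mem a)

theorem RelG.pow (h : RelG g x x') (m : ℕ) : RelG g (x ^ m) (x' ^ m) := by
  induction m with
  | zero => simpa using relG_FO g (one_mem _)
  | succ m ih => rw [pow_succ, pow_succ]; exact ih.mul h

theorem RelG.zpow (h : RelG g x x') (m : ℤ) : RelG g (x ^ m) (x' ^ m) := by
  obtain ⟨n, rfl | rfl⟩ := Int.eq_nat_or_neg m
  · simpa using h.pow n
  · simpa using (h.pow n).inv

theorem RelG.unique (h : RelG g x x') (h' : RelG g x y') : x' = y' := h.2.symm.trans h'.2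

theorem RelG.inj (h : RelG g x z) (h' : RelG g y z) : x = y :=
  congrArg Subtype.val (g.injective (Subtype.ext (h.2.trans h'.2.symm)))

theorem RelG.ne_zero (h : RelG g x x') (h0 : x ≠ 0) : x' ≠ 0 := by
  rintro rfl
  exact h0 (h.inj (relG_FO g (zero_mem _)))

theorem RelG.comp (h1 : RelG g x y) (h2 : RelG h y z) : RelG (h * g) x z :=
  ⟨h1.1, by
    rw [← h2.2, AlgEquiv.mul_apply]
    congr 2
    exact Subtype.ext h1.2⟩

theorem RelG.symm (h1 : RelG g x y) : RelG g⁻¹ y x :=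
  ⟨h1.mem', by
    have : (⟨y, h1.mem'⟩ : NN c A) = g ⟨x, h1.1⟩ := Subtype.ext h1.2.symm
    rw [this, ← AlgEquiv.mul_apply, inv_mul_cancel]
    rfl⟩

theorem relG_one (hx : x ∈ NN c A) : RelG (1 : GG c A) x x := ⟨hx, rfl⟩

theorem RelG.of_mul (h1 : RelG (h * g) x z) : ∃ y, RelG g x y ∧ RelG h y z :=
  ⟨_, ⟨h1.1, rfl⟩, (g ⟨x, h1.1⟩).2, h1.2⟩

theorem relG_sum {ι : Type} (s : Finset ι) {f f' : ι → LO} (h : ∀ i ∈ s, RelG g (f i) (f' i)) :
    RelG g (∑ i ∈ s, f i) (∑ i ∈ s, f' i) := by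
  induction s using Finset.cons_induction with
  | empty => simpa using relG_FO g (zero_mem _)
  | cons a s ha ih =>
    rw [sum_cons, sum_cons]
    exact (h a (mem_cons_self _ _)).add (ih fun i hi => h i (mem_cons_of_mem hi))

theorem relG_prod {ι : Type} (s : Finset ι) {f f' : ι → LO} (h : ∀ i ∈ s, RelG g (f i) (f' i)) :
    RelG g (∏ i ∈ s, f i) (∏ i ∈ s, f' i) := by
  induction s using Finset.cons_induction with
  | empty => simpa using relG_FO g (one_mem _)
  | cons a s ha ih =>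
    rw [prod_cons, prod_cons]
    exact (h a (mem_cons_self _ _)).mul (ih fun i hi => h i (mem_cons_of_mem hi))

theorem RelG.ev (h : RelG g x x') (P : R2) : RelG g (ev x P) (ev x' P) := by
  rw [ev_eq_sum, ev_eq_sum]
  exact relG_sum _ fun e _ => h.pow e

theorem RelG.eval₂ (h : RelG g x x') (h' : RelG g y y') (Q : Polynomial R2) :
    RelG g (Q.eval₂ (Quad.ev x) y) (Q.eval₂ (Quad.ev x') y') := by
  rw [Polynomial.eval₂_eq_sum_range, Polynomial.eval₂_eq_sum_range]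
  exact relG_sum _ fun e _ => (h.ev _).mul (h'.pow e)

theorem RelG.ph_Sp {ζ ζ' : Kbˣ} {l l' : ℕ} (h : RelG g (ph ζ l (S c)) (ph ζ' l' (S c)))
    {J : Set ℤ} {f : L2} (hf : f ∈ Sp c J) : RelG g (ph ζ l f) (ph ζ' l' f) := by
  induction hf using Submodule.span_induction with
  | mem x hx =>
    obtain ⟨j, -, rfl⟩ := hx
    simpa only [map_zpow₀] using h.zpow j
  | zero => simpa using relG_FO g (zero_mem _)
  | add x y _ _ hx hy => simpa only [map_add] using hx.add hy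
  | smul a x _ hx =>
    rcases z2_cases a with rfl | rfl
    · simpa using relG_FO g (zero_mem _)
    · simpa using hx

end

/-- The automorphism `g` multiplies the classes of exponents modulo `2 ^ k` by `w`. -/
def MulG (g : GG c A) (k : ℕ) (w : ℤ) : Prop :=
  ∀ y y' a, RelG g y y' → ClsO k a y → ClsO k (a * w) y'

theorem MulG.comp {g h : GG c A} {k : ℕ} {v w : ℤ} (h1 : MulG g k v) (h2 : MulG h k w) :
    MulG (h * g) k (v * w) := fun y y' a h3 h4 => by
  obtain ⟨z, h5, h6⟩ := h3.of_mul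
  rw [← mul_assoc]
  exact h2 _ _ _ h6 (h1 _ _ _ h5 h4)

theorem mulG_one (k : ℕ) : MulG (1 : GG c A) k 1 := fun y y' a h1 h2 => by
  rw [mul_one, ← (relG_one h1.1).unique h1]
  exact h2

theorem MulG.congr {g : GG c A} {k : ℕ} {v w : ℤ} (h : MulG g k v) (h1 : v ≡ w [ZMOD 2 ^ k]) :
    MulG g k w := fun y y' a h2 h3 => (h y y' a h2 h3).congr (h1.mul_left a)

theorem MulG.pow {g : GG c A} {k : ℕ} {v : ℤ} (h : MulG g k v) (m : ℕ) :
    MulG (g ^ m) k (v ^ m) := by
  induction m with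
  | zero => simpa using mulG_one k
  | succ m ih => rw [pow_succ', pow_succ]; exact ih.comp h

theorem MulG.cmpO {g : GG c A} {k : ℕ} {w : ℤ} (h : MulG g k w) (hw : Odd w) {y y' : LO}
    (h1 : RelG g y y') (hK : ∀ r, cmpO k r y ∈ NN c A) (a : ℤ) :
    RelG g (cmpO k a y) (cmpO k (a * w) y') := by
  choose z hz using fun r => ex_relG g (hK r)
  have h0 : (0 : ℤ) < 2 ^ k := by positivity
  have h2 := relG_sum (Ico (0 : ℤ) (2 ^ k)) fun r _ => hz r
  rw [sum_cmpO] at h2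
  have h3 : ∀ r, ClsO k (r * w) (z r) := fun r => h _ _ _ (hz r) (cls_cmpO k r y)
  have h4 := Int.mod_modEq a (2 ^ k)
  have h5 : Prog.cmpO k (a * w) y' = z (a % 2 ^ k) := by
    rw [h1.unique h2, map_sum, sum_eq_single_of_mem (a % 2 ^ k)
      (mem_Ico.2 ⟨Int.emod_nonneg _ h0.ne', Int.emod_lt_of_pos _ h0⟩),
      (h3 _).cmp_eq (h4.mul_right _)]
    refine fun r hr hne => (h3 r).cmp_ne fun h5 => hne ?_
    rw [mem_Ico] at hr
    rw [← cancel_odd hw h5, Int.emod_eq_of_lt hr.1 hr.2]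
  rw [h5, ← cmpO_congr h4]
  exact hz _

end Pool.Agent.Lib.MP_a3366f_nt.Quad.Prog
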