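import Mathlib
import Pool.Agent.Lib.MP_a3366f_nt.Pr.Defs

/-!
The modular polynomials modulo two and their roots.
-/

open Finset

namespace Pool.Agent.Lib.MP_a3366f_nt.Quad.Prog

open Ker Zt

variable {c A : ℕ}

theorem node_mem {R L : Type} [CommRing R] [IsDomain R] [IsIntegrallyClosed R] [Field L]
    [Algebra R L] (hψ : Function.Injective (algebraMap R L)) {a b : R} (hb : b ≠ 0) {e : L}
    (he : IsIntegral R e) (h : algebraMap R L b * e = algebraMap R L a) :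
    ∃ r, algebraMap R L r = e := by
  let φ : FractionRing R →ₐ[R] L := IsFractionRing.liftAlgHom (g := Algebra.ofId R L) hψ
  have hb1 : algebraMap R L b ≠ 0 := fun h0 => hb (hψ (by rw [h0, map_zero]))
  have h1 : φ (algebraMap R _ a / algebraMap R _ b) = e := by
    rw [map_div₀, φ.commutes, φ.commutes, ← h, mul_div_cancel_left₀ _ hb1]
  rw [← h1] at he
  obtain ⟨r, hr⟩ := IsIntegrallyClosed.isIntegral_iff.1
    ((isIntegral_algHom_iff φ φ.toRingHom.injective).1 he)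
  exact ⟨r, by rw [← h1, ← hr, φ.commutes]⟩

theorem node_int {R L ι : Type} [CommRing R] [IsNoetherianRing R] [Field L] [Algebra R L]
    (J : Finset ι) (y z : ι → L) (hy : ∀ j ∈ J, y j ≠ 0) (hz : Set.InjOn z J) (q : ℕ → R)
    (hq : ∀ i, algebraMap R L (q i) = ∑ j ∈ J, y j * z j ^ i) {j : ι} (hj : j ∈ J) :
    IsIntegral R (z j) := by
  classical
  set G := Lagrange.basis J z j with hG
  have h1 : ∀ i, y j * z j ^ i =
      ∑ k ∈ range (G.natDegree + 1), q (k + i) • G.coeff k := fun i => by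
    have h2 : ∑ l ∈ J, y l * z l ^ i * G.eval (z l) = y j * z j ^ i := by
      rw [sum_eq_single_of_mem j hj fun k hk hkj => by
        rw [Lagrange.eval_basis_of_ne hkj.symm hk, mul_zero], Lagrange.eval_basis_self hz hj,
        mul_one]
    rw [← h2]
    simp only [Algebra.smul_def, hq, Polynomial.eval_eq_sum_range, mul_sum, sum_mul]
    rw [sum_comm]
    exact sum_congr rfl fun k _ => sum_congr rfl fun l _ => by ring
  let W : Submodule R L := Submodule.span R ((range (G.natDegree + 1)).image G.coeff : Finset L)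
  have hW : W.FG := ⟨_, rfl⟩
  let N : Submodule R L := Submodule.span R (Set.range fun i : ℕ => y j * z j ^ i)
  have hN : N ≤ W := by
    refine Submodule.span_le.2 ?_
    rintro _ ⟨i, rfl⟩
    dsimp only
    rw [h1]
    exact W.sum_mem fun k hk => W.smul_mem _
      (Submodule.subset_span (mem_coe.2 (mem_image_of_mem _ hk)))
  refine isIntegral_of_smul_mem_submodule N (fun h0 => hy j hj ?_) (hW.of_le hN) _ fun n hn => ?_
  · have : y j * z j ^ 0 ∈ N := Submodule.subset_span ⟨0, rfl⟩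
    rw [h0] at this
    simpa using this
  · induction hn using Submodule.span_induction with
    | mem x hx =>
      obtain ⟨i, rfl⟩ := hx
      exact Submodule.subset_span ⟨i + 1, by simp only [smul_eq_mul]; ring⟩
    | zero => simp
    | add x w _ _ hx hw => rw [smul_add]; exact N.add_mem hx hw
    | smul a x _ hx => rw [smul_comm]; exact N.smul_mem a hx

theorem node_coeff_int {R L ι : Type} [CommRing R] [Field L] [Algebra R L] (J : Finset ι)
    (z : ι → L) (h : ∀ j ∈ J, IsIntegral R (z j)) (n : ℕ) :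
    IsIntegral R ((Lagrange.nodal J z).coeff n) := by
  classical
  have : Lagrange.nodal J z = (∏ j ∈ J.attach, (Polynomial.X - Polynomial.C
      (⟨z j, h j j.2⟩ : integralClosure R L))).map (integralClosure R L).val.toRingHom := by
    rw [Polynomial.map_prod, Lagrange.nodal_eq, ← prod_attach]
    exact prod_congr rfl fun j _ => by simp
  rw [this, Polynomial.coeff_map]
  exact Subtype.property _

theorem node_der {R L : Type} [CommRing R] [CommRing L] (ψ : R →+* L) (Q : Polynomial R) (T : L) :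
    (Polynomial.derivative Q).eval₂ ψ T = ∑ k ∈ range (Q.natDegree + 1),
      ψ (Q.coeff k) * ∑ i ∈ range k, T ^ i * T ^ (k - 1 - i) := by
  conv_lhs => rw [Q.as_sum_range_C_mul_X_pow]
  rw [map_sum, Polynomial.eval₂_finsetSum]
  refine sum_congr rfl fun k _ => ?_
  rw [geom_sum₂_self, Polynomial.derivative_C_mul_X_pow]
  simp [mul_assoc]

theorem rat_monic {R L ι : Type} [CommRing R] [IsDomain R] [IsNoetherianRing R]
    [IsIntegrallyClosed R] [Field L] (ψ : R →+* L) (hψ : Function.Injective ψ) (J : Finset ι)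
    (y z : ι → L) (hy : ∀ j ∈ J, y j ≠ 0) (hz : Set.InjOn z J) (q : ℕ → R)
    (hq : ∀ i, ψ (q i) = ∑ j ∈ J, y j * z j ^ i) :
    ∃ Q N : Polynomial R, Q.Monic ∧ Q.map ψ = ∏ j ∈ J, (Polynomial.X - Polynomial.C (z j)) ∧
      ∀ j ∈ J, y j * (Polynomial.derivative Q).eval₂ ψ (z j) = N.eval₂ ψ (z j) := by
  classical
  let _ : Algebra R L := ψ.toAlgebra
  obtain ⟨Q0, Q00, Q1, Q2⟩ := rat_aux2 J.card q
  have key : ∀ i, ψ (∑ k ∈ range (J.card + 1), Q0.coeff k * q (k + i)) =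
      ∑ j ∈ J, y j * Q0.eval₂ ψ (z j) * z j ^ i := fun i => by
    simp only [map_sum, map_mul, hq, Polynomial.eval₂_eq_sum_range' ψ Q1, mul_sum, sum_mul]
    rw [sum_comm]
    exact sum_congr rfl fun j _ => sum_congr rfl fun k _ => by ring
  have root : ∀ j ∈ J, Q0.eval₂ ψ (z j) = 0 := fun j hj =>
    (mul_eq_zero.1 (rat_aux1 J (fun j => y j * Q0.eval₂ ψ (z j)) z hz
      (fun i hi => by rw [← key, Q2 i hi, map_zero]) j hj)).resolve_left (hy j hj)
  have hP : Q0.map ψ = Polynomial.C (ψ (Q0.coeff J.card)) * Lagrange.nodal J z := by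
    rw [← sub_eq_zero]
    refine Polynomial.eq_zero_of_degree_lt_of_eval_index_eq_zero J hz ?_ fun j hj => ?_
    · refine (Polynomial.degree_lt_iff_coeff_zero _ _).2 fun m hm => ?_
      rw [Polynomial.coeff_sub, Polynomial.coeff_map, Polynomial.coeff_C_mul]
      rcases hm.eq_or_lt with rfl | hm
      · have := (Lagrange.nodal_monic (s := J) (v := z)).coeff_natDegree
        rw [Lagrange.natDegree_nodal] at this
        rw [this, mul_one, sub_self]
      · rw [Polynomial.coeff_eq_zero_of_natDegree_lt (p := Q0) (n := m) (by omega),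
          Polynomial.coeff_eq_zero_of_natDegree_lt (p := Lagrange.nodal J z)
            (by rwa [Lagrange.natDegree_nodal]), map_zero, mul_zero, sub_self]
    · rw [Polynomial.eval_sub, Polynomial.eval_map, root j hj, Polynomial.eval_mul,
        Lagrange.eval_nodal_at_node hj, mul_zero, sub_self]
  have hb : Q0.coeff J.card ≠ 0 := fun h0 => Q00 ((Polynomial.map_eq_zero_iff hψ).1 (by
    rw [hP, h0, map_zero, map_zero, zero_mul]))
  have hl : Lagrange.nodal J z ∈ Polynomial.lifts ψ := by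
    refine (Polynomial.lifts_iff_coeff_lifts _).2 fun n => ?_
    refine node_mem (a := Q0.coeff n) hψ hb
      (node_coeff_int J z (fun j hj => node_int J y z hy hz q hq hj) n) ?_
    have := congrArg (fun p => Polynomial.coeff p n) hP
    simp only [Polynomial.coeff_map, Polynomial.coeff_C_mul] at this
    exact this.symm
  obtain ⟨Q, hQ1, -, hQ2⟩ := Polynomial.lifts_and_natDegree_eq_and_monic hl Lagrange.nodal_monic
  refine ⟨Q, ∑ k ∈ range (Q.natDegree + 1), ∑ i ∈ range k,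
    Polynomial.C (Q.coeff k * q i) * Polynomial.X ^ (k - 1 - i), hQ2, hQ1, fun l hl => ?_⟩
  have root1 : ∀ j ∈ J, Q.eval₂ ψ (z j) = 0 := fun j hj => by
    rw [← Polynomial.eval_map, hQ1, Lagrange.eval_nodal_at_node hj]
  have e : (∑ k ∈ range (Q.natDegree + 1), ∑ i ∈ range k,
      Polynomial.C (Q.coeff k * q i) * Polynomial.X ^ (k - 1 - i)).eval₂ ψ (z l) =
      ∑ j ∈ J, y j * ∑ k ∈ range (Q.natDegree + 1),
        ψ (Q.coeff k) * ∑ i ∈ range k, z j ^ i * z l ^ (k - 1 - i) := by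
    simp only [Polynomial.eval₂_finsetSum, Polynomial.eval₂_mul, Polynomial.eval₂_C,
      Polynomial.eval₂_X_pow, map_mul, hq, mul_sum, sum_mul]
    rw [sum_comm (s := J)]
    refine sum_congr rfl fun k _ => ?_
    rw [sum_comm (s := J)]
    exact sum_congr rfl fun i _ => sum_congr rfl fun j _ => by ring
  rw [e, node_der, sum_eq_single_of_mem l hl]
  intro j hj hjl
  have h1 : z j - z l ≠ 0 := sub_ne_zero.2 fun h => hjl (hz hj hl h)
  have h2 : (∑ k ∈ range (Q.natDegree + 1),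
      ψ (Q.coeff k) * ∑ i ∈ range k, z j ^ i * z l ^ (k - 1 - i)) * (z j - z l) =
      Q.eval₂ ψ (z j) - Q.eval₂ ψ (z l) := by
    rw [sum_mul, Polynomial.eval₂_eq_sum_range, Polynomial.eval₂_eq_sum_range,
      ← sum_sub_distrib]
    exact sum_congr rfl fun k _ => by rw [mul_assoc, geom_sum₂_mul, mul_sub]
  rw [root1 j hj, root1 l hl, sub_self] at h2
  rw [(mul_eq_zero.1 h2).resolve_right h1, mul_zero]

/-- The properties of the modular polynomial of index `L`, in the square of the second variable. -/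
def IsMod (L : ℕ) (Q : Polynomial R2) : Prop := Q.Monic ∧
  (∀ (η ζ : Kbˣ) (μ d : ℕ), μ ≠ 0 → d ∣ L → ζ ^ (L / d) = 1 →
    Q.eval₂ (ev (ph (η ^ L) (L * μ) s)) (ph (ζ * η ^ d ^ 2) (μ * d ^ 2) s ^ 2) = 0) ∧
  (∀ (η : Kbˣ) (μ : ℕ), μ ≠ 0 → ∀ (Ω : Type) [Field Ω] (ι : LO →+* Ω) (y : Ω),
    Q.eval₂ (ι.comp (ev (ph (η ^ L) (L * μ) s))) (y ^ 2) = 0 →
      ∃ (d : ℕ) (ζ : Kbˣ), d ∣ L ∧ ζ ^ (L / d) = 1 ∧ y = ι (ph (ζ * η ^ d ^ 2) (μ * d ^ 2) s)) ∧
  ∃ N D : Polynomial R2, ∀ (ζ : Kbˣ) (μ d : ℕ), μ ≠ 0 → d ∣ L → ζ ^ (L / d) = 1 →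
    D.eval₂ (ev (ph 1 (L * μ) s)) (ph ζ (μ * d ^ 2) s ^ 2) ≠ 0 ∧
      ph ζ (μ * d ^ 2) s * D.eval₂ (ev (ph 1 (L * μ) s)) (ph ζ (μ * d ^ 2) s ^ 2) =
        N.eval₂ (ev (ph 1 (L * μ) s)) (ph ζ (μ * d ^ 2) s ^ 2)

theorem node_q {L : ℕ} (hL : Odd L) (i : ℕ) : ∃ q : R2, ev s q = TL L (s ^ (2 * i + 1)) := by
  have h : TL L (s ^ (2 * i + 1)) ∈ Sp 1 {j | j ≤ -((2 * i + 1 : ℕ) : ℤ)} := by
    refine TL_mem_le (Or.inl rfl) (by simpa using hL) ?_
    rw [s_pow]
    exact zpow_mem_Sp (le_refl (-((2 * i + 1 : ℕ) : ℤ)))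
  obtain ⟨q, hq⟩ := exists_poly h
  exact ⟨_, hq.symm⟩

theorem node_tr (η ζ : Kbˣ) {μ l : ℕ} (hμ : μ ≠ 0) (hl : l ≠ 0) (f : L2) :
    (V μ).comp (twO η) (ph ζ l f) = ph (ζ * η ^ l) (μ * l) f := by
  rw [RingHom.comp_apply, twO_ph η ζ hl, V_ph _ hl hμ]

theorem ex_mod {L : ℕ} (hL : Odd L) : ∃ Q, IsMod L Q := by
  classical
  obtain ⟨ω, hω⟩ := exists_root hL
  have hL0 := hL.pos
  choose q hq using node_q hL
  set J := L.divisors.sigma fun d => range (L / d) with hJ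
  have hpos : ∀ j ∈ J, j.1 ^ 2 ≠ 0 := fun j hj => by
    have := Nat.pos_of_mem_divisors (mem_sigma.1 hj).1
    positivity
  have hprim : ∀ d, d ∣ L → IsPrimitiveRoot (ω ^ d) (L / d) := fun d hd =>
    hω.pow hL0 (Nat.mul_div_cancel' hd).symm
  set y : (Σ _ : ℕ, ℕ) → LO := fun j => ph (ω ^ (j.1 * j.2)) (j.1 ^ 2) s with hy
  have hz : Set.InjOn (fun j => y j ^ 2) J := by
    rintro ⟨d, j⟩ h1 ⟨e, k⟩ h2 h3
    obtain ⟨h4, h5⟩ := ph_inj (hpos _ h1) (hpos _ h2) h3
    dsimp only at h4 h5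
    obtain rfl : d = e := (Nat.pow_left_inj two_ne_zero).1 h4
    obtain ⟨h6, h7⟩ := mem_sigma.1 (mem_coe.1 h1)
    obtain ⟨-, h8⟩ := mem_sigma.1 (mem_coe.1 h2)
    rw [pow_mul, pow_mul] at h5
    obtain rfl : j = k :=
      (hprim d (Nat.dvd_of_mem_divisors h6)).pow_inj (mem_range.1 h7) (mem_range.1 h8) h5
    rfl
  obtain ⟨Q, N, hQ, hP, hN⟩ := rat_monic ((ph 1 L).comp (ev s))
    ((ph 1 L).injective.comp ev_s_injective) J y (fun j => y j ^ 2)
    (fun j _ => (map_ne_zero _).2 s_ne_zero) hz q (fun i => by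
      have := ph_TL hL one_ne_zero hω (s ^ (2 * i + 1))
      simp only [one_mul] at this
      rw [RingHom.comp_apply, hq, this, sum_sigma]
      refine sum_congr rfl fun d _ => sum_congr rfl fun j _ => ?_
      rw [map_pow]
      ring)
  have hbase : ∀ (η : Kbˣ) (μ : ℕ), μ ≠ 0 → ev (ph (η ^ L) (L * μ) s) =
      ((V μ).comp (twO η)).comp ((ph 1 L).comp (ev s)) := fun η μ hμ => by
    rw [hom_comp_ev, hom_comp_ev, node_tr η 1 hμ hL0.ne', one_mul, mul_comm]
  have hnode : ∀ (ζ : Kbˣ) (d : ℕ), d ∣ L → ζ ^ (L / d) = 1 → ∃ j ∈ J, ∀ (η : Kbˣ) (μ : ℕ),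
      μ ≠ 0 → (V μ).comp (twO η) (y j) = ph (ζ * η ^ d ^ 2) (μ * d ^ 2) s := by
    intro ζ d hd hζ
    have hd1 : d ∈ L.divisors := Nat.mem_divisors.2 ⟨hd, hL0.ne'⟩
    have : NeZero (L / d) := ⟨root_div hd1⟩
    obtain ⟨i, hi, rfl⟩ := (hprim d hd).eq_pow_of_mem_rootsOfUnity ((mem_rootsOfUnity _ _).2 hζ)
    have hj : (⟨d, i⟩ : Σ _ : ℕ, ℕ) ∈ J := mem_sigma.2 ⟨hd1, mem_range.2 hi⟩
    exact ⟨⟨d, i⟩, hj, fun η μ hμ => by rw [hy, node_tr η _ hμ (hpos _ hj), pow_mul]⟩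
  refine ⟨Q, hQ, fun η ζ μ d hμ hd hζ => ?_, fun η μ hμ Ω _ ι w hw => ?_, N,
    Polynomial.derivative Q, fun ζ μ d hμ hd hζ => ?_⟩
  · obtain ⟨j, hj, h1⟩ := hnode ζ d hd hζ
    rw [hbase η μ hμ, ← h1 η μ hμ, ← map_pow, ← Polynomial.hom_eval₂, ← Polynomial.eval_map, hP,
      Polynomial.eval_prod, prod_eq_zero hj (by simp), map_zero]
  · rw [hbase η μ hμ, ← RingHom.comp_assoc, ← Polynomial.eval₂_map, hP,
      Polynomial.eval₂_finsetProd, prod_eq_zero_iff] at hw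
    obtain ⟨⟨d, i⟩, hj, h1⟩ := hw
    obtain ⟨h2, h3⟩ := mem_sigma.1 hj
    have hd := Nat.dvd_of_mem_divisors h2
    refine ⟨d, ω ^ (d * i), hd, ?_, ?_⟩
    · rw [pow_mul, ← pow_mul _ i, mul_comm i, pow_mul, (hprim d hd).pow_eq_one, one_pow]
    · rw [Polynomial.eval₂_sub, Polynomial.eval₂_X, Polynomial.eval₂_C, map_pow,
        RingHom.comp_apply, hy, node_tr η _ hμ (hpos _ hj), sq_sub_sq, mul_eq_zero] at h1
      rcases h1 with h1 | h1
      · rw [eq_neg_of_add_eq_zero_left h1, ← map_neg, CharTwo.neg_eq]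
      · exact sub_eq_zero.1 h1
  · obtain ⟨j, hj, h1⟩ := hnode ζ d hd hζ
    have h2 := h1 1 μ hμ
    have h3 := hbase 1 μ hμ
    rw [one_pow, mul_one] at h2
    rw [one_pow] at h3
    rw [h3, ← h2, ← map_pow, ← Polynomial.hom_eval₂, ← Polynomial.hom_eval₂, ← map_mul, hN j hj]
    refine ⟨(map_ne_zero _).2 ?_, rfl⟩
    rw [← Polynomial.eval_map, ← Polynomial.derivative_map, hP, ← Lagrange.nodal_eq,
      Lagrange.eval_nodal_derivative_eval_node_eq (v := fun j => y j ^ 2) hj]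
    exact Lagrange.eval_nodal_not_at_node fun k hk h =>
      (mem_erase.1 hk).1 (hz hj (mem_erase.1 hk).2 h).symm

end Pool.Agent.Lib.MP_a3366f_nt.Quad.Prog
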