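import Mathlib
import Pool.Agent.Lib.MP_a3366f_nt.Pr.Node

/-!
Membership, integrality and squares in the field generated by all nodes.
-/

open Finset

namespace Pool.Agent.Lib.MP_a3366f_nt.Quad.Prog

open Ker Zt

variable {c A : ℕ}

theorem ph_S_mem {L l : ℕ} {ζ : Kbˣ} (h : Node c A L ζ l) : ph ζ l (S c) ∈ NN c A :=
  IntermediateField.subset_adjoin _ _ ⟨L, ζ, l, h, Or.inl rfl⟩

theorem field1_ph_sg (ζ : Kbˣ) (l : ℕ) : ph ζ l (sg c) = (ph ζ l (S c) ^ c)⁻¹ := by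
  rw [sg, Dl, map_inv₀, map_pow]

theorem field1_z2 (B : Subring LO) (ζ : Kbˣ) (l : ℕ) (r : ZMod 2) :
    ph ζ l (algebraMap (ZMod 2) L2 r) ∈ B := by
  rcases z2_cases r with rfl | rfl
  · rw [map_zero, map_zero]; exact zero_mem B
  · rw [map_one, map_one]; exact one_mem B

theorem ph_KK {L l : ℕ} {ζ : Kbˣ} (h : Node c A L ζ l) {y : L2} (hy : y ∈ KK c) :
    ph ζ l y ∈ NN c A := by
  have hF : ∀ x ∈ F0 c, ph ζ l x ∈ NN c A := fun x hx => by
    induction hx using IntermediateField.adjoin_induction with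
    | mem x hx =>
      rw [Set.mem_singleton_iff.1 hx, field1_ph_sg]
      exact inv_mem (pow_mem (ph_S_mem h) _)
    | algebraMap r => exact field1_z2 (NN c A).toSubring ζ l r
    | add x y _ _ hx hy => rw [map_add]; exact add_mem hx hy
    | inv x _ hx => rw [map_inv₀]; exact inv_mem hx
    | mul x y _ _ hx hy => rw [map_mul]; exact mul_mem hx hy
  induction hy using IntermediateField.adjoin_induction with
  | mem x hx =>
    obtain ⟨n, b, hb, rfl⟩ := hx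
    exact IntermediateField.subset_adjoin _ _ ⟨L, ζ, l, h, Or.inr ⟨n, b, hb, rfl⟩⟩
  | algebraMap r => exact hF _ r.2
  | add x y _ _ hx hy => rw [map_add]; exact add_mem hx hy
  | inv x _ hx => rw [map_inv₀]; exact inv_mem hx
  | mul x y _ _ hx hy => rw [map_mul]; exact mul_mem hx hy

theorem field1_node (hc : c = 1 ∨ c = 3) (hA : Odd A) {L l : ℕ} {ζ : Kbˣ} (h : Node c A L ζ l) :
    Odd L ∧ ∃ μ d : ℕ, μ ≠ 0 ∧ d ∣ L ∧ (ζ ^ c) ^ (L / d) = 1 ∧ uu c A = ph 1 (L * μ) s ∧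
      ph ζ l (sg c) = ph (ζ ^ c) (μ * d ^ 2) s := by
  have h0 := (h.odd hA).pos.ne'
  obtain ⟨h1, d, h2, h3, h4⟩ := h
  refine ⟨hA.of_dvd_nat h1, c * (A / L), d, ?_, h2, by rw [← pow_mul, h4], ?_, ?_⟩
  · refine mul_ne_zero (by omega) fun h5 => h0 ?_
    rw [h3, h5, zero_mul]
  · rw [uu, mul_left_comm, Nat.mul_div_cancel' h1]
  · rw [ph_sg hc ζ h0, h3, mul_assoc]

theorem field1_ev_mem (B : Subring LO) {u : LO} (hu : u ∈ B) (P : R2) : ev u P ∈ B := by
  rw [ev_eq_sum]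
  exact sum_mem fun e _ => pow_mem hu e

theorem ph_sg_int (hc : c = 1 ∨ c = 3) (hA : Odd A) {L l : ℕ} {ζ : Kbˣ} (h : Node c A L ζ l) :
    IsIntegral (AO c A) (ph ζ l (sg c)) := by
  obtain ⟨hL, μ, d, h1, h2, h3, h4, h5⟩ := field1_node hc hA h
  obtain ⟨Q, hQ, h6, -⟩ := ex_mod hL
  have h7 := h6 1 (ζ ^ c) μ d h1 h2 h3
  rw [one_pow, one_pow, mul_one, ← h4, ← h5] at h7
  let ψ : R2 →+* AO c A := (ev (uu c A)).codRestrict (AO c A)
    fun P => field1_ev_mem (AO c A).toSubring (uu_AO c A) P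
  refine IsIntegral.of_pow two_pos ⟨Q.map ψ, hQ.map ψ, ?_⟩
  rw [Polynomial.eval₂_map]
  exact h7

theorem ph_OO (hc : c = 1 ∨ c = 3) (hA : Odd A) {L l : ℕ} {ζ : Kbˣ} (h : Node c A L ζ l) {y : L2}
    (hy : y ∈ OO c) : IsIntegral (AO c A) (ph ζ l y) := by
  have h1 : ∀ x ∈ AA c, ph ζ l x ∈ integralClosure (AO c A) LO := fun x hx => by
    induction hx using Algebra.adjoin_induction with
    | mem x hx => rw [Set.mem_singleton_iff.1 hx]; exact ph_sg_int hc hA h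
    | algebraMap r => exact field1_z2 (integralClosure (AO c A) LO).toSubring ζ l r
    | add x y _ _ hx hy => rw [map_add]; exact add_mem hx hy
    | mul x y _ _ hx hy => rw [map_mul]; exact mul_mem hx hy
  let φ : AA c →+* integralClosure (AO c A) LO :=
    ((ph ζ l).comp (algebraMap (AA c) L2)).codRestrict (integralClosure (AO c A) LO)
      fun x => h1 _ x.2
  have h2 : IsIntegral (AA c) y := hy.2
  exact isIntegral_trans (A := integralClosure (AO c A) LO) _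
    (IsIntegral.map_of_comp_eq φ (ph ζ l) rfl h2)

theorem node_finite (hc : c = 1 ∨ c = 3) (hA : Odd A) :
    {p : ℕ × Kbˣ × ℕ | Node c A p.1 p.2.1 p.2.2}.Finite := by
  have h0 := hA.pos
  have : NeZero (c * A) := ⟨mul_ne_zero (by omega) h0.ne'⟩
  have h5 : (rootsOfUnity (c * A) Kb : Set Kbˣ).Finite :=
    Set.finite_coe_iff.1 (inferInstanceAs (Finite (rootsOfUnity (c * A) Kb)))
  refine ((Set.finite_Iic A).prod (h5.prod (Set.finite_Iic (A * A ^ 2)))).subset ?_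
  rintro ⟨L, ζ, l⟩ ⟨h1, d, h2, h3, h4⟩
  dsimp only at h1 h2 h3 h4
  refine ⟨Nat.le_of_dvd h0 h1, ?_, ?_⟩
  · obtain ⟨m, hm⟩ := (Nat.div_dvd_of_dvd h2).trans h1
    change ζ ∈ rootsOfUnity (c * A) Kb
    rw [mem_rootsOfUnity, hm, ← mul_assoc, pow_mul, h4, one_pow]
  · change l ≤ A * A ^ 2
    rw [h3]
    exact Nat.mul_le_mul (Nat.div_le_self _ _)
      (Nat.pow_le_pow_left (Nat.le_of_dvd h0 (h2.trans h1)) 2)

theorem ex_D (hc : c = 1 ∨ c = 3) (hA : Odd A) : ∃ D ∈ AO c A, D ≠ 0 ∧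
    ∀ L ζ l, Node c A L ζ l → IsIntegral (AO c A) (D * ph ζ l (S c)) := by
  classical
  have h1 : ∀ p : ℕ × Kbˣ × ℕ, ∃ D : AO c A, D ≠ 0 ∧ (Node c A p.1 p.2.1 p.2.2 →
      IsIntegral (AO c A) ((D : LO) * ph p.2.1 p.2.2 (S c))) := fun p => by
    by_cases h : Node c A p.1 p.2.1 p.2.2
    · have h2 := (ph_sg_int hc hA h).isAlgebraic.inv
      rw [field1_ph_sg, inv_inv] at h2
      obtain ⟨D, h3, h4⟩ := (h2.of_pow (by omega)).exists_integral_multiple
      exact ⟨D, h3, fun _ => h4⟩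
    · exact ⟨1, one_ne_zero, fun h1 => absurd h1 h⟩
  choose D h2 h3 using h1
  refine ⟨(∏ p ∈ (node_finite hc hA).toFinset, D p : AO c A), Subtype.property _, ?_,
    fun L ζ l h => ?_⟩
  · exact fun h => prod_ne_zero_iff.2 (fun p _ => h2 p) (Subtype.ext h)
  · rw [← prod_erase_mul _ _ ((node_finite hc hA).mem_toFinset.2 (show (L, ζ, l) ∈ _ from h)),
      Subalgebra.coe_mul, mul_assoc]
    exact (isIntegral_algebraMap (R := AO c A)).mul (h3 (L, ζ, l) h)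

open scoped IntermediateField.algebraAdjoinAdjoin in
theorem NN_alg (hc : c = 1 ∨ c = 3) (hA : Odd A) : Algebra.IsAlgebraic (FO c A) (NN c A) := by
  have h1 : ∀ {L ζ l}, Node c A L ζ l → IsIntegral (FO c A) (ph ζ l (S c)) := fun h => by
    have h2 : IsIntegral (FO c A) _ := IsIntegral.tower_top (R := AO c A) (ph_sg_int hc hA h)
    have h3 := h2.inv
    rw [field1_ph_sg, inv_inv] at h3
    exact h3.of_pow (by omega)
  refine IntermediateField.isAlgebraic_adjoin ?_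
  rintro _ ⟨L, ζ, l, h, rfl | ⟨n, b, hb, rfl⟩⟩
  · exact h1 h
  · have h2 : Th c n b = Dl c ^ EE n * (sg c ^ EE n * Th c n b) := by
      rw [← mul_assoc, ← mul_pow, mul_comm (Dl c), sg_mul hc, one_pow, one_mul]
    rw [h2, map_mul, map_pow, Dl, map_pow]
    exact (((h1 h).pow _).pow _).mul
      (IsIntegral.tower_top (R := AO c A) (ph_OO hc hA h (Th_OO hc n hb)))

/-- Elements of the form `u ^ 2 + τ * v ^ 2`. -/
def SqO (B : Subring LO) {τ : LO} (hτ : τ ∈ B) : Subring LO where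
  carrier := {y | ∃ u ∈ B, ∃ v ∈ B, y = u ^ 2 + τ * v ^ 2}
  zero_mem' := ⟨0, zero_mem _, 0, zero_mem _, by simp⟩
  one_mem' := ⟨1, one_mem _, 0, zero_mem _, by simp⟩
  add_mem' := by
    rintro _ _ ⟨u, hu, v, hv, rfl⟩ ⟨u', hu', v', hv', rfl⟩
    exact ⟨u + u', add_mem hu hu', v + v', add_mem hv hv', by
      rw [CharTwo.add_sq, CharTwo.add_sq]; ring⟩
  mul_mem' := by
    rintro _ _ ⟨u, hu, v, hv, rfl⟩ ⟨u', hu', v', hv', rfl⟩
    exact ⟨u * u' + τ * (v * v'), add_mem (mul_mem hu hu') (mul_mem hτ (mul_mem hv hv')),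
      u * v' + v * u', add_mem (mul_mem hu hv') (mul_mem hv hu'), by
      rw [CharTwo.add_sq, CharTwo.add_sq]; ring⟩
  neg_mem' := by
    intro y hy
    rwa [CharTwo.neg_eq]

theorem sq_mem_SqO {B : Subring LO} {τ : LO} (hτ : τ ∈ B) {u : LO} (hu : u ∈ B) :
    u ^ 2 ∈ SqO B hτ := ⟨u, hu, 0, zero_mem _, by simp⟩

theorem self_mem_SqO {B : Subring LO} {τ : LO} (hτ : τ ∈ B) : τ ∈ SqO B hτ :=
  ⟨0, zero_mem _, 1, one_mem _, by simp⟩

theorem NN_split (hc : c = 1 ∨ c = 3) (hA : Odd A) {y : LO} (hy : y ∈ NN c A) :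
    ∃ u ∈ NN c A, ∃ v ∈ NN c A, y = u ^ 2 + uu c A * v ^ 2 := by
  have h0 : uu c A ∈ (NN c A).toSubring := FO_le (AO_le (uu_AO c A))
  have hinv : ∀ x, x ∈ SqO _ h0 → x⁻¹ ∈ SqO _ h0 := fun x h => by
    have hx : x ∈ NN c A := by
      obtain ⟨u, hu, v, hv, rfl⟩ := h
      exact add_mem (pow_mem hu 2) (mul_mem h0 (pow_mem hv 2))
    have : x⁻¹ = x * x⁻¹ ^ 2 := by
      by_cases h1 : x = 0
      · simp [h1]
      · field_simp
    rw [this]
    exact mul_mem h (sq_mem_SqO h0 (inv_mem hx : x⁻¹ ∈ NN c A))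
  have hF : ∀ x ∈ FO c A, x ∈ SqO _ h0 := fun x hx => by
    induction hx using IntermediateField.adjoin_induction with
    | mem x hx => rw [Set.mem_singleton_iff.1 hx]; exact self_mem_SqO _
    | algebraMap r =>
      obtain ⟨z, rfl⟩ := IsAlgClosed.exists_pow_nat_eq r two_pos
      rw [map_pow]
      exact sq_mem_SqO h0 (FO_le ((FO c A).algebraMap_mem z))
    | add x y _ _ hx hy => exact add_mem hx hy
    | inv x _ hx => exact hinv x hx
    | mul x y _ _ hx hy => exact mul_mem hx hy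
  have hs : ∀ {L ζ l}, Node c A L ζ l → ph ζ l (sg c) ∈ SqO _ h0 := fun {L ζ l} h => by
    obtain ⟨hL, μ, d, h1, h2, h3, h4, h5⟩ := field1_node hc hA h
    obtain ⟨Q, -, -, -, N, D, h6⟩ := ex_mod hL
    obtain ⟨h7, h8⟩ := h6 (ζ ^ c) μ d h1 h2 h3
    rw [← h4, ← h5] at h7 h8
    have h9 : ∀ P : Polynomial R2, P.eval₂ (ev (uu c A)) (ph ζ l (sg c) ^ 2) ∈ SqO _ h0 :=
      fun P => by
        rw [Polynomial.eval₂_eq_sum_range]
        exact sum_mem fun e _ => mul_mem (field1_ev_mem _ (self_mem_SqO h0) _)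
          (pow_mem (sq_mem_SqO h0 (ph_KK h (F0_le (AA_le (sg_AA c))))) e)
    rw [(eq_mul_inv_iff_mul_eq₀ h7).2 h8]
    exact mul_mem (h9 N) (hinv _ (h9 D))
  show y ∈ SqO _ h0
  induction hy using IntermediateField.adjoin_induction with
  | mem x hx =>
    obtain ⟨L, ζ, l, h, rfl | ⟨n, b, hb, rfl⟩⟩ := hx
    · have h1 := hinv _ (hs h)
      rw [field1_ph_sg, inv_inv] at h1
      have h2 : ph ζ l (S c) ≠ 0 := (map_ne_zero _).2 (S_ne_zero hc)
      have h3 := sq_mem_SqO h0 (inv_mem (ph_S_mem h) : _ ∈ NN c A)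
      generalize ph ζ l (S c) = x at h1 h2 h3 ⊢
      rcases hc with rfl | rfl
      · rwa [pow_one] at h1
      · have h4 : x = x⁻¹ ^ 2 * x ^ 3 := by field_simp
        rw [h4]
        exact mul_mem h3 h1
    · obtain ⟨u, hu, v, hv, h1⟩ := KK_split hc (Th_KK c n hb)
      rw [h1, map_add, map_mul, map_pow, map_pow]
      exact add_mem (sq_mem_SqO h0 (ph_KK h hu)) (mul_mem (hs h) (sq_mem_SqO h0 (ph_KK h hv)))
  | algebraMap r => exact hF _ r.2
  | add x y _ _ hx hy => exact add_mem hx hy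
  | inv x _ hx => exact hinv x hx
  | mul x y _ _ hx hy => exact mul_mem hx hy

theorem field1_cls_uu (hc : c = 1 ∨ c = 3) (hA : Odd A) : ClsO 1 1 (uu c A) := by
  rw [← ph_base hc hA]
  refine (clsO_ph (cls_sg hc) 1 hA.pos.ne').congr ?_
  obtain ⟨m, rfl⟩ := hA
  rw [Int.ModEq]
  push_cast
  omega

theorem NN_root (hc : c = 1 ∨ c = 3) (hA : Odd A) (k : ℕ) : ∀ {y : LO}, y ∈ NN c A → ClsO k 0 y →
    ∃ w ∈ NN c A, y = w ^ 2 ^ k := by
  induction k with
  | zero => exact fun hy _ => ⟨_, hy, by simp⟩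
  | succ k ih =>
    intro y hy h
    obtain ⟨u, hu, v, hv, rfl⟩ := NN_split hc hA hy
    have h1 := (h.mono (show 1 ≤ k + 1 by omega)).cmp_ne (a := 1) (by decide)
    have h2 : ClsO 1 0 (u ^ 2) := by simpa using clsO_pow_two_pow 1 u
    have h3 : ClsO 1 0 (v ^ 2) := by simpa using clsO_pow_two_pow 1 v
    rw [map_add, h2.cmp_ne (by decide), ((field1_cls_uu hc hA).mul h3).cmp_eq (by decide),
      zero_add] at h1
    rw [h1, add_zero] at h ⊢
    obtain ⟨w, hw, rfl⟩ := ih hu (clsO_of_sq h)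
    exact ⟨w, hw, by rw [← pow_mul, pow_succ]⟩

theorem field1_coeff (hc : c = 1 ∨ c = 3) (hA : Odd A) (P : Polynomial Kb) :
    (Polynomial.aeval (uu c A) P).coeff (((c * A : ℕ) : ℤ) * -(P.natDegree : ℤ)) =
      P.leadingCoeff := by
  have h0 : c * A ≠ 0 := mul_ne_zero (by omega) hA.pos.ne'
  rw [Polynomial.aeval_def, Polynomial.eval₂_eq_sum_range, HahnSeries.coeff_sum,
    sum_eq_single_of_mem _ (self_mem_range_succ _)]
  · rw [coeff_alg_mul, uu, ← map_pow, coeff_ph_mul _ h0, s_pow, coeff_S_zpow_self (Or.inl rfl)]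
    simp
  · intro i hi h1
    rw [mem_range] at hi
    rw [coeff_alg_mul, uu, ← map_pow, coeff_ph_mul _ h0, s_pow,
      ge_S_zpow (Or.inl rfl) _ _ (by omega), map_zero, mul_zero, mul_zero]

theorem order_AO (hc : c = 1 ∨ c = 3) (hA : Odd A) {y : LO} (hy : y ∈ AO c A) (h0 : y ≠ 0) :
    y.order ≤ 0 := by
  rw [AO, Algebra.adjoin_singleton_eq_range_aeval] at hy
  obtain ⟨P, rfl⟩ := hy
  have h1 : P ≠ 0 := fun h => h0 (by simp [h])
  refine (HahnSeries.order_le_of_coeff_ne_zero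
    (g := ((c * A : ℕ) : ℤ) * -(P.natDegree : ℤ)) ?_).trans
    (mul_nonpos_of_nonneg_of_nonpos (by positivity) (by omega))
  exact field1_coeff hc hA P ▸ Polynomial.leadingCoeff_ne_zero.2 h1

theorem uu_transc (hc : c = 1 ∨ c = 3) (hA : Odd A) : Transcendental Kb (uu c A) := by
  rintro ⟨P, h0, h⟩
  have := field1_coeff hc hA P
  rw [h] at this
  exact Polynomial.leadingCoeff_ne_zero.2 h0 this.symm

end Pool.Agent.Lib.MP_a3366f_nt.Quad.Prog
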