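import Mathlib
import Pool.Agent.Lib.MP_a3366f_nt.Pr.Field1

/-!
The field generated by all nodes is normal; action on nodes; inertia at the cusp.
-/

open Finset

namespace Pool.Agent.Lib.MP_a3366f_nt.Quad.Prog

open Ker Zt

variable {c A : ℕ}

/-- An algebraic closure of the field of Laurent series. -/
abbrev OmO := AlgebraicClosure LO

/-- The embedding `ψ` sends `y` to `y'`. -/
def RelO (ψ : NN c A →ₐ[FO c A] OmO) (y y' : LO) : Prop :=
  ∃ hy : y ∈ NN c A, ψ ⟨y, hy⟩ = algebraMap LO OmO y'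

section

variable {ψ : NN c A →ₐ[FO c A] OmO} {x x' y y' : LO}

theorem RelO.add (h : RelO ψ x x') (h' : RelO ψ y y') : RelO ψ (x + y) (x' + y') :=
  ⟨add_mem h.1 h'.1, by rw [map_add, ← h.2, ← h'.2, ← map_add]; rfl⟩

theorem RelO.mul (h : RelO ψ x x') (h' : RelO ψ y y') : RelO ψ (x * y) (x' * y') :=
  ⟨mul_mem h.1 h'.1, by rw [map_mul, ← h.2, ← h'.2, ← map_mul]; rfl⟩

theorem RelO.inv (h : RelO ψ x x') : RelO ψ x⁻¹ x'⁻¹ :=
  ⟨inv_mem h.1, by rw [map_inv₀, ← h.2, ← map_inv₀]; rfl⟩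

theorem relO_FO (ψ : NN c A →ₐ[FO c A] OmO) (h : x ∈ FO c A) : RelO ψ x x :=
  ⟨FO_le h, ψ.commutes ⟨x, h⟩⟩

theorem RelO.pow (h : RelO ψ x x') (m : ℕ) : RelO ψ (x ^ m) (x' ^ m) := by
  induction m with
  | zero => simpa using relO_FO ψ (one_mem _)
  | succ m ih => rw [pow_succ, pow_succ]; exact ih.mul h

theorem relO_pair {u v u' v' : LO} (hu : u ∈ NN c A) (hv : v ∈ NN c A)
    (h1 : RelO ψ (u + v) (u' + v')) (h2 : RelO ψ (u * v) (u' * v')) :
    RelO ψ u u' ∧ RelO ψ v v' ∨ RelO ψ u v' ∧ RelO ψ v u' := by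
  have h3 : ψ ⟨u, hu⟩ + ψ ⟨v, hv⟩ = algebraMap LO OmO u' + algebraMap LO OmO v' := by
    rw [← map_add, ← map_add, ← h1.2]; rfl
  have h4 : ψ ⟨u, hu⟩ * ψ ⟨v, hv⟩ = algebraMap LO OmO u' * algebraMap LO OmO v' := by
    rw [← map_mul, ← map_mul, ← h2.2]; rfl
  have h5 : (ψ ⟨u, hu⟩ - algebraMap LO OmO u') * (ψ ⟨u, hu⟩ - algebraMap LO OmO v') = 0 := by
    linear_combination ψ ⟨u, hu⟩ * h3 - h4
  rcases mul_eq_zero.1 h5 with h | h
  · exact Or.inl ⟨⟨hu, by linear_combination h⟩, hv, by linear_combination h3 - h⟩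
  · exact Or.inr ⟨⟨hu, by linear_combination h⟩, hv, by linear_combination h3 - h⟩

end

theorem field2_mem {L l : ℕ} {ζ : Kbˣ} (h : Node c A L ζ l) (n : ℕ) {b : ℤ} (hb : Odd b) :
    ph ζ l (Th c n b) ∈ NN c A :=
  IntermediateField.subset_adjoin _ _ ⟨L, ζ, l, h, Or.inr ⟨n, b, hb, rfl⟩⟩

theorem field2_Th (hc : c = 1 ∨ c = 3) {ψ : NN c A →ₐ[FO c A] OmO} {L l l' : ℕ} {ζ ζ' : Kbˣ}
    (h : Node c A L ζ l) (hD : RelO ψ (ph ζ l (Dl c)) (ph ζ' l' (Dl c))) (n : ℕ) :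
    ∀ {b : ℤ}, Odd b → ∃ b', Odd b' ∧ RelO ψ (ph ζ l (Th c n b)) (ph ζ' l' (Th c n b')) ∧
      RelO ψ (ph ζ l (Th c n (b + 2 * 2 ^ n))) (ph ζ' l' (Th c n (b' + 2 * 2 ^ n))) := by
  induction n with
  | zero =>
    intro b hb
    refine ⟨b, hb, ?_, ?_⟩
    · rw [Th_zero hc hb]; exact hD
    · rw [Th_zero hc (odd_sib hb _)]; exact hD
  | succ n ih =>
    intro b hb
    obtain ⟨b', hb', h1, h2⟩ := ih hb
    have h3 := (h2.mul (hD.pow (4 * 4 ^ n))).pow 2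
    simp only [← map_pow, ← map_mul] at h3
    rw [← Th_mul hc, ← Th_mul hc, map_mul, map_mul] at h3
    rw [← Th_add hc n b, ← Th_add hc n b', map_add, map_add] at h1
    rw [show (2 : ℤ) * 2 ^ (n + 1) = 4 * 2 ^ n by ring]
    rcases relO_pair (field2_mem h _ hb) (field2_mem h _ (odd_sib' hb _)) h1 h3 with h | h
    · exact ⟨b', hb', h⟩
    · refine ⟨_, odd_sib' hb' _, h.1, ?_⟩
      rw [show b' + 4 * 2 ^ n + 4 * 2 ^ n = b' + 4 * 2 ^ (n + 1) by ring, Th_per]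
      exact h.2

theorem field2_eps (hc : c = 1 ∨ c = 3) {ε : Kbˣ} (hε : ε ^ c = 1) (z : Kbˣ) {l : ℕ}
    (hl : l ≠ 0) : algebraMap Kb LO ε * ph z l (S c) = ph (ε * z) l (S c) := by
  ext n
  rw [coeff_alg_mul]
  by_cases h : (l : ℤ) ∣ n
  · obtain ⟨m, rfl⟩ := h
    rw [coeff_ph_mul _ hl, coeff_ph_mul _ hl]
    by_cases h1 : (S c).coeff m = 0
    · rw [h1, map_zero, mul_zero, mul_zero, mul_zero]
    · obtain ⟨k, hk⟩ := (supp_S_zpow hc (j := 1) (by rwa [zpow_one])).2.symm.dvd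
      have h2 : ε ^ m = ε := by
        rw [show m = c * (8 * k) + 1 by linear_combination hk, zpow_add_one, zpow_mul,
          zpow_natCast, hε, one_zpow, one_mul]
      rw [mul_zpow, h2, Units.val_mul, mul_assoc]
  · simp only [coeff_ph _ hl, if_neg h, mul_zero]

theorem field2_node (hc : c = 1 ∨ c = 3) (hA : Odd A) (ψ : NN c A →ₐ[FO c A] OmO) {L l : ℕ}
    {ζ : Kbˣ} (h : Node c A L ζ l) :
    ∃ ζ' l', Node c A L ζ' l' ∧ RelO ψ (ph ζ l (S c)) (ph ζ' l' (S c)) := by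
  have hl := (h.odd hA).pos.ne'
  have hS := ph_S_mem h
  have hc0 : 0 < c := by omega
  obtain ⟨hL, d, hd, rfl, hζ⟩ := h
  obtain ⟨Q, -, q2, q3, -⟩ := ex_mod (hA.of_dvd_nat hL)
  have hAL : A / L ≠ 0 := left_ne_zero_of_mul hl
  have hμ : c * (A / L) ≠ 0 := mul_ne_zero hc0.ne' hAL
  have e1 : ph (1 ^ L) (L * (c * (A / L))) s = uu c A := by
    rw [one_pow, mul_left_comm, Nat.mul_div_cancel' hL, uu]
  have h1 := q2 1 (ζ ^ c) _ d hμ hd (by rw [← pow_mul, hζ])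
  rw [e1, one_pow, mul_one, mul_assoc, ← ph_sg hc ζ hl] at h1
  have hF : ∀ P, ev (uu c A) P ∈ FO c A := fun P => by
    rw [ev_eq_sum]
    exact sum_mem fun e _ => pow_mem (AO_le (uu_AO c A)) e
  have e2 : ∀ z m, ph z m (sg c) = (ph z m (S c) ^ c)⁻¹ := fun z m => by
    rw [sg, Dl, map_inv₀, map_pow]
  let φ : R2 →+* NN c A := (ev (uu c A)).codRestrict (NN c A) fun P => FO_le (hF P)
  let x : NN c A := ⟨_, hS⟩
  have h2 : Q.eval₂ φ ((x ^ c)⁻¹ ^ 2) = 0 := by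
    refine Subtype.ext ?_
    have h3 := Polynomial.hom_eval₂ Q φ (NN c A).val.toRingHom ((x ^ c)⁻¹ ^ 2)
    rw [map_pow, map_inv₀, map_pow] at h3
    rw [e2] at h1
    exact h3.trans h1
  have h3 := Polynomial.hom_eval₂ Q φ ψ.toRingHom ((x ^ c)⁻¹ ^ 2)
  have e3 : ψ.toRingHom.comp φ = (algebraMap LO OmO).comp (ev (uu c A)) :=
    RingHom.ext fun P => (relO_FO ψ (hF P)).2
  rw [h2, map_zero, e3, map_pow, ← e1] at h3
  obtain ⟨d', ξ, hd', hξ, h4⟩ := q3 1 _ hμ OmO _ _ h3.symm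
  obtain ⟨z0, hz0⟩ := IsAlgClosed.exists_pow_nat_eq (ξ : Kb) hc0
  have hz1 : z0 ≠ 0 := fun h => ξ.ne_zero (by rw [← hz0, h, zero_pow hc0.ne'])
  have hz : Units.mk0 z0 hz1 ^ c = ξ := Units.ext hz0
  have hl' : A / L * d' ^ 2 ≠ 0 :=
    mul_ne_zero hAL (pow_ne_zero _ (hA.of_dvd_nat (hd'.trans hL)).pos.ne')
  generalize Units.mk0 z0 hz1 = z at hz
  rw [one_pow, mul_one, mul_assoc, ← hz, ← ph_sg hc z hl', e2, map_inv₀, map_inv₀, inv_inj,
    map_pow, map_pow] at h4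
  have h5 : algebraMap LO OmO (ph z (A / L * d' ^ 2) (S c)) ≠ 0 :=
    (map_ne_zero _).2 ((map_ne_zero _).2 (S_ne_zero hc))
  obtain ⟨ω, hω⟩ := exists_root (n := c) (by rcases hc with rfl | rfl <;> decide)
  have : NeZero c := ⟨hc0.ne'⟩
  obtain ⟨i, -, hi⟩ := ((IsPrimitiveRoot.coe_units_iff.2 hω).map_of_injective
    ((algebraMap LO OmO).comp (algebraMap Kb LO)).injective).eq_pow_of_pow_eq_one
      (ξ := ψ.toRingHom x / algebraMap LO OmO (ph z (A / L * d' ^ 2) (S c)))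
      (by rw [div_pow, h4, div_self (pow_ne_zero _ h5)])
  have hε : (ω ^ i) ^ c = 1 := by rw [← pow_mul, mul_comm, pow_mul, hω.pow_eq_one, one_pow]
  refine ⟨ω ^ i * z, _, ⟨hL, d', hd', rfl, by rw [pow_mul, mul_pow, hε, one_mul, hz, hξ]⟩, hS, ?_⟩
  rw [← field2_eps hc hε z hl', map_mul, Units.val_pow_eq_pow_val, map_pow, map_pow]
  exact ((eq_div_iff h5).1 hi).symm

theorem field2_ex (hc : c = 1 ∨ c = 3) (hA : Odd A) (ψ : NN c A →ₐ[FO c A] OmO) {y : LO}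
    (hy : y ∈ NN c A) : ∃ y' ∈ NN c A, RelO ψ y y' := by
  induction hy using IntermediateField.adjoin_induction with
  | mem x hx =>
    obtain ⟨L, ζ, l, h, hx⟩ := hx
    obtain ⟨ζ', l', h', r⟩ := field2_node hc hA ψ h
    rcases hx with rfl | ⟨n, b, hb, rfl⟩
    · exact ⟨_, ph_S_mem h', r⟩
    · have hD := r.pow c
      rw [← map_pow, ← map_pow] at hD
      obtain ⟨b', hb', h1, -⟩ := field2_Th hc h hD n hb
      exact ⟨_, field2_mem h' n hb', h1⟩
  | algebraMap r => exact ⟨_, FO_le r.2, relO_FO ψ r.2⟩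
  | add x y _ _ hx hy =>
    exact ⟨_, add_mem hx.choose_spec.1 hy.choose_spec.1, hx.choose_spec.2.add hy.choose_spec.2⟩
  | inv x _ hx => exact ⟨_, inv_mem hx.choose_spec.1, hx.choose_spec.2.inv⟩
  | mul x y _ _ hx hy =>
    exact ⟨_, mul_mem hx.choose_spec.1 hy.choose_spec.1, hx.choose_spec.2.mul hy.choose_spec.2⟩

/-- The inclusion into the algebraic closure. -/
noncomputable def jO (c A : ℕ) : NN c A →ₐ[FO c A] OmO :=
  (IsScalarTower.toAlgHom (FO c A) LO OmO).comp (NN c A).val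

theorem jO_apply (x : NN c A) : jO c A x = algebraMap LO OmO (x : LO) := rfl

theorem emb_eq (hc : c = 1 ∨ c = 3) (hA : Odd A) (ψ : NN c A →ₐ[FO c A] OmO) :
    ∃ g : GG c A, ∀ x : NN c A, ψ x = algebraMap LO OmO (g x : LO) := by
  have := NN_alg hc hA
  have h1 : ∀ x, ψ x ∈ (jO c A).range := fun x => by
    obtain ⟨y, hy, h⟩ := field2_ex hc hA ψ x.2
    exact ⟨⟨y, hy⟩, h.2.symm⟩
  let e := AlgEquiv.ofInjective (jO c A) (jO c A).toRingHom.injective
  let φ : NN c A →ₐ[FO c A] NN c A := e.symm.toAlgHom.comp (ψ.codRestrict _ h1)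
  refine ⟨AlgEquiv.ofBijective φ (Algebra.IsAlgebraic.algHom_bijective φ), fun x => ?_⟩
  exact (congrArg Subtype.val (e.apply_symm_apply ⟨ψ x, h1 x⟩)).symm

theorem node_act (hc : c = 1 ∨ c = 3) (hA : Odd A) (g : GG c A) {L l : ℕ} {ζ : Kbˣ}
    (h : Node c A L ζ l) :
    ∃ ζ' l', Node c A L ζ' l' ∧ RelG g (ph ζ l (S c)) (ph ζ' l' (S c)) := by
  obtain ⟨ζ', l', h1, h2, h3⟩ := field2_node hc hA ((jO c A).comp g.toAlgHom) h
  exact ⟨ζ', l', h1, h2, (algebraMap LO OmO).injective h3⟩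

open scoped IntermediateField.algebraAdjoinAdjoin in
theorem order_fixedO (hc : c = 1 ∨ c = 3) (hA : Odd A) {x : LO} (hx : x ∈ NN c A)
    (hi : IsIntegral (AO c A) x) (h0 : x ≠ 0) (h : ∀ g : GG c A, RelG g x x) : x.order ≤ 0 := by
  have alg := NN_alg hc hA
  have icl : IsIntegrallyClosed (AO c A) := IsIntegrallyClosed.of_equiv
    (Polynomial.algEquivOfTranscendental Kb (uu c A) (uu_transc hc hA)).toRingEquiv
  let x' : NN c A := ⟨x, hx⟩
  have hint : IsIntegral (FO c A) x' := Algebra.IsIntegral.isIntegral x'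
  set P := (minpoly (FO c A) x').map (algebraMap (FO c A) OmO) with hP
  have hm : P.Monic := (minpoly.monic hint).map _
  have hs : P.Splits := IsAlgClosed.splits P
  have h1 : P.roots = Multiset.replicate P.natDegree (algebraMap LO OmO x) := by
    rw [hs.natDegree_eq_card_roots]
    refine Multiset.eq_replicate_card.2 fun z hz => ?_
    have h2 : z ∈ (minpoly (FO c A) x').rootSet OmO :=
      Polynomial.mem_rootSet'.2 (Polynomial.mem_aroots'.1 hz)
    rw [← Algebra.IsAlgebraic.range_eval_eq_rootSet_minpoly] at h2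
    obtain ⟨ψ, rfl⟩ := h2
    obtain ⟨g, hg⟩ := emb_eq hc hA ψ
    exact (hg x').trans (congrArg _ (h g).2)
  have h2 := hs.coeff_zero_eq_prod_roots_of_monic hm
  rw [h1, Multiset.prod_replicate, ← mul_pow, hP, Polynomial.coeff_map,
    Polynomial.natDegree_map] at h2
  have h3 : algebraMap (FO c A) LO ((minpoly (FO c A) x').coeff 0) =
      (-x) ^ (minpoly (FO c A) x').natDegree := by
    refine (algebraMap LO OmO).injective ?_
    rw [map_pow, map_neg, ← neg_one_mul, ← h2]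
    rfl
  have h4 : IsIntegral (AO c A) ((minpoly (FO c A) x').coeff 0) := by
    rw [← isIntegral_algebraMap_iff (algebraMap (FO c A) LO).injective, h3]
    exact (IsIntegral.neg hi).pow _
  obtain ⟨z, hz⟩ := IsIntegrallyClosed.isIntegral_iff.1 h4
  have h5 : (z : LO) = (-x) ^ (minpoly (FO c A) x').natDegree := by rw [← h3, ← hz]; rfl
  have h6 := order_AO hc hA z.2 (h5 ▸ pow_ne_zero _ (neg_ne_zero.2 h0))
  rw [h5, HahnSeries.order_pow, HahnSeries.order_neg, nsmul_eq_mul] at h6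
  have h7 : (0 : ℤ) < (minpoly (FO c A) x').natDegree := by
    exact_mod_cast minpoly.natDegree_pos hint
  exact nonpos_of_mul_nonpos_right h6 h7

theorem inertia (hc : c = 1 ∨ c = 3) (hA : Odd A) {η : Kbˣ} (hη : η ^ (c * A) = 1) :
    ∃ g : GG c A, ∀ y ∈ NN c A, RelG g y (twO η y) := by
  have hF : ∀ x ∈ FO c A, twO η x = x := fun x hx => by
    induction hx using IntermediateField.adjoin_induction with
    | mem x hx =>
      rw [Set.mem_singleton_iff.1 hx, uu, twO_ph _ _ (mul_ne_zero (by omega) hA.pos.ne'), hη,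
        mul_one]
    | algebraMap r => exact twO_alg η r
    | add x y _ _ hx hy => rw [map_add, hx, hy]
    | inv x _ hx => rw [map_inv₀, hx]
    | mul x y _ _ hx hy => rw [map_mul, hx, hy]
  obtain ⟨g, hg⟩ := emb_eq hc hA
    { (algebraMap LO OmO).comp ((twO η).comp (NN c A).val.toRingHom) with
      commutes' := fun r => congrArg (algebraMap LO OmO) (hF r r.2) }
  exact ⟨g, fun y hy => ⟨hy, ((algebraMap LO OmO).injective (hg ⟨y, hy⟩)).symm⟩⟩

end Pool.Agent.Lib.MP_a3366f_nt.Quad.Prog
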