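import Mathlib
import Pool.Agent.Lib.MP_a3366f_nt.Pr.Field2

/-!
The action on classes of exponents modulo powers of two.
-/

open Finset

namespace Pool.Agent.Lib.MP_a3366f_nt.Quad.Prog

open Ker Zt

variable {c A : ℕ}

theorem field3_pair {g : GG c A} {u v u' v' : LO} (hu : u ∈ NN c A) (hv : v ∈ NN c A)
    (h1 : RelG g (u + v) (u' + v')) (h2 : RelG g (u * v) (u' * v')) :
    RelG g u u' ∧ RelG g v v' ∨ RelG g u v' ∧ RelG g v u' := by
  obtain ⟨a, ha⟩ := ex_relG g hu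
  obtain ⟨b, hb⟩ := ex_relG g hv
  have h3 : a + b = u' + v' := (ha.add hb).unique h1
  have h4 : a * b = u' * v' := (ha.mul hb).unique h2
  have h5 : (a - u') * (a - v') = 0 := by linear_combination a * h3 - h4
  rcases mul_eq_zero.1 h5 with h | h
  · have e1 : a = u' := by linear_combination h
    have e2 : b = v' := by linear_combination h3 - h
    exact Or.inl ⟨e1 ▸ ha, e2 ▸ hb⟩
  · have e1 : a = v' := by linear_combination h
    have e2 : b = u' := by linear_combination h3 - h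
    exact Or.inr ⟨e1 ▸ ha, e2 ▸ hb⟩

theorem field3_Dl (hc : c = 1 ∨ c = 3) (hA : Odd A) (g : GG c A) :
    RelG g (ph 1 A (Dl c)) (ph 1 A (Dl c)) := by
  have h : ph 1 A (Dl c) = (uu c A)⁻¹ := by
    rw [← ph_base hc hA, ← map_inv₀, sg, inv_inv]
  rw [h]
  exact relG_FO g (inv_mem (AO_le (uu_AO c A)))

theorem field3_Th (hc : c = 1 ∨ c = 3) (hA : Odd A) (g : GG c A) (n : ℕ) : ∀ {b : ℤ}, Odd b →
    ∃ b', Odd b' ∧ RelG g (ph 1 A (Th c n b)) (ph 1 A (Th c n b')) ∧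
      RelG g (ph 1 A (Th c n (b + 2 * 2 ^ n))) (ph 1 A (Th c n (b' + 2 * 2 ^ n))) := by
  induction n with
  | zero =>
    intro b hb
    refine ⟨b, hb, ?_, ?_⟩
    · rw [Th_zero hc hb]; exact field3_Dl hc hA g
    · rw [Th_zero hc (odd_sib hb _)]; exact field3_Dl hc hA g
  | succ n ih =>
    intro b hb
    obtain ⟨b', hb', h1, h2⟩ := ih hb
    have h3 := (h2.mul ((field3_Dl hc hA g).pow (4 * 4 ^ n))).pow 2
    rw [← map_pow, ← map_mul, ← map_mul, ← map_pow, ← map_pow, ← Th_mul hc, ← Th_mul hc,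
      map_mul, map_mul] at h3
    rw [← Th_add hc n b, ← Th_add hc n b', map_add, map_add] at h1
    rw [show (2 : ℤ) * 2 ^ (n + 1) = 4 * 2 ^ n by ring]
    rcases field3_pair (ph_KK (node_base c A) (Th_KK c _ hb))
      (ph_KK (node_base c A) (Th_KK c _ (odd_sib' hb _))) h1 h3 with h | h
    · exact ⟨b', hb', h⟩
    · refine ⟨_, odd_sib' hb' _, h.1, ?_⟩
      rw [show b' + 4 * 2 ^ n + 4 * 2 ^ n = b' + 4 * 2 ^ (n + 1) by ring, Th_per]
      exact h.2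

theorem field3_odd (hc : c = 1 ∨ c = 3) (hA : Odd A) : Odd ((A : ℤ) * c) := by
  have h1 : Odd (A : ℤ) := by exact_mod_cast hA
  exact h1.mul (by rcases hc with rfl | rfl <;> decide)

theorem field3_cls (hA : Odd A) {n k : ℕ} (hk : k ≤ n) (b : ℤ) :
    ClsO k (A * c * b ^ 2) (ph 1 A (Th c n b)) := by
  rw [mul_assoc]
  exact clsO_ph ((cls_Th c n b).mono (by omega)) 1 hA.pos.ne'

theorem field3_ne (hc : c = 1 ∨ c = 3) (n : ℕ) {b : ℤ} (hb : Odd b) : ph 1 A (Th c n b) ≠ 0 :=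
  (map_ne_zero _).2 (Th_ne hc n hb)

theorem field3_mul (hc : c = 1 ∨ c = 3) (hA : Odd A) (g : GG c A) (n : ℕ) :
    ∃ β : ℤ, Odd β ∧ ∀ k ≤ n, MulG g k (β ^ 2) := by
  obtain ⟨b, hb, h, -⟩ := field3_Th hc hA g n odd_one
  refine ⟨b, hb, fun k hk y y' a hy ha => ?_⟩
  obtain ⟨u, v, huv⟩ := cop_two (field3_odd hc hA) k
  obtain ⟨m, hm⟩ := Int.eq_ofNat_of_zero_le
    (Int.emod_nonneg (-a * v) (show (2 : ℤ) ^ k ≠ 0 by positivity))
  have h1 : a + m * (A * c) ≡ 0 [ZMOD 2 ^ k] := by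
    have h2 := ((Int.mod_modEq (-a * v) (2 ^ k)).mul_right (A * c)).add_left a
    rw [hm] at h2
    exact h2.trans (Int.modEq_zero_iff_dvd.2 ⟨a * u, by linear_combination (-a) * huv⟩)
  have h2 := hy.mul (h.pow m)
  obtain ⟨w, hw, h3⟩ := NN_root hc hA k h2.mem
    ((ha.mul ((field3_cls hA hk 1).pow m)).congr (by simpa using h1))
  obtain ⟨w', hw'⟩ := ex_relG g hw
  rw [h3] at h2
  refine clsO_of_mul ((field3_cls hA hk b).pow m) (pow_ne_zero _ (field3_ne hc n hb)) ?_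
  rw [h2.unique (hw'.pow _)]
  refine (clsO_pow_two_pow k w').congr ?_
  have h4 := h1.mul_right (b ^ 2)
  rw [zero_mul, add_mul, mul_assoc] at h4
  exact h4.symm

theorem ex_mulG (hc : c = 1 ∨ c = 3) (hA : Odd A) (g : GG c A) (k : ℕ) :
    ∃ β : ℤ, Odd β ∧ MulG g k (β ^ 2) := by
  obtain ⟨β, h1, h2⟩ := field3_mul hc hA g k
  exact ⟨β, h1, h2 k le_rfl⟩

theorem MulG.inv_mul (hc : c = 1 ∨ c = 3) (hA : Odd A) {g : GG c A} {k : ℕ} {v w : ℤ}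
    (h1 : MulG g k v) (h2 : MulG g⁻¹ k w) : v * w ≡ 1 [ZMOD 2 ^ k] := by
  obtain ⟨y, hy⟩ := ex_relG g (ph_KK (node_base c A) (Th_KK c k odd_one))
  have h3 := field3_cls (c := c) hA (le_refl k) 1
  have h4 := h2 _ _ _ hy.symm (h1 _ _ _ hy h3)
  have h5 := h4.unique h3 (field3_ne hc k odd_one)
  refine cancel_odd (field3_odd hc hA) ?_
  convert h5 using 1 <;> ring

theorem field3_div {l : ℕ} (hl : Odd l) (k : ℕ) (r : ℤ) : ∃ a : ℤ, r ≡ l * a [ZMOD 2 ^ k] := by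
  obtain ⟨u, v, huv⟩ := cop_two (b := l) (by exact_mod_cast hl) k
  exact ⟨v * r, Int.modEq_iff_dvd.2 ⟨-(u * r), by linear_combination r * huv⟩⟩

theorem ex_nineO (hc : c = 1 ∨ c = 3) (hA : Odd A) {k : ℕ} (hk : 4 ≤ k) :
    ∃ (g : GG c A) (β : ℤ), Odd β ∧ MulG g k (β ^ 2) ∧ β ^ 2 ≡ 9 [ZMOD 16] := by
  classical
  by_contra! h
  have h1 : ∀ n, (Dl c).coeff n = if ∃ a : ℕ, Odd a ∧ n = c * a ^ 2 then 1 else 0 := fun n => by
    simpa [Dl] using coeff_S_sparse hc 0 n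
  have h2 : cmp 4 (9 * c) (Dl c) ≠ 0 := fun h2 => by
    have h3 := coeff_cmp 4 (9 * c) (Dl c) (9 * c)
    rw [h2, if_pos (Int.ModEq.refl _), h1, if_pos ⟨3, by decide, by push_cast; ring⟩] at h3
    exact zero_ne_one h3
  have h3 : 9 * c ≤ (cmp 4 (9 * c) (Dl c)).order := by
    have h4 := mt HahnSeries.coeff_order_eq_zero.1 h2
    generalize (cmp 4 (9 * c) (Dl c)).order = n at h4
    rw [coeff_cmp, h1] at h4
    split_ifs at h4 with h5 h6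
    · obtain ⟨a, ⟨m, rfl⟩, rfl⟩ := h6
      rcases Nat.eq_zero_or_pos m with rfl | hm
      · revert h5
        rcases hc with rfl | rfl <;> decide
      · have : (1 : ℤ) ≤ m := by exact_mod_cast hm
        have h7 : (0 : ℤ) ≤ c := by positivity
        push_cast
        nlinarith [mul_nonneg h7 (show (0 : ℤ) ≤ (2 * m + 1) ^ 2 - 9 by nlinarith)]
    all_goals exact absurd rfl h4
  have hO := cmp_Dl hc (k := 4) (n := 1) le_rfl (9 * c)
  have h0 : sg c ^ EE 1 * cmp 4 (9 * c) (Dl c) ≠ 0 := mul_ne_zero (pow_ne_zero _ (sg_ne hc)) h2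
  have h0' : ph 1 A (sg c ^ EE 1 * cmp 4 (9 * c) (Dl c)) ≠ 0 := (map_ne_zero _).2 h0
  have h4 := order_fixedO hc hA (ph_KK (node_base c A) hO.1) (ph_OO hc hA (node_base c A) hO) h0'
    fun g => by
      obtain ⟨b, hb, hb'⟩ := field3_mul hc hA g k
      have h6 : b ^ 2 ≡ 1 [ZMOD 2 ^ 4] := by
        have h7 := h g b hb (hb' k le_rfl)
        obtain ⟨m, rfl⟩ := hb
        obtain ⟨l, hl⟩ := Int.even_mul_succ_self m
        rw [show (2 * m + 1) ^ 2 = 4 * (m * (m + 1)) + 1 by ring, hl, Int.ModEq] at h7 ⊢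
        omega
      have h5 := ((hb' 4 hk).congr h6).cmpO odd_one (field3_Dl hc hA g) (fun r => by
        obtain ⟨a', ha'⟩ := field3_div hA 4 r
        rw [cmpO_congr ha', cmpO_ph 4 a' 1 hA]
        exact ph_KK (node_base c A) (mem_of_sg hc (cmp_Dl hc (k := 4) (n := 1) le_rfl a')))
        (A * (9 * c))
      rw [mul_one, cmpO_ph 4 _ 1 hA] at h5
      rw [map_mul, map_pow, ph_base hc hA]
      exact ((relG_FO g (AO_le (uu_AO c A))).pow _).mul h5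
  have h5 := ((ge_order _).ph 1 hA.pos.ne').le (mt HahnSeries.coeff_order_eq_zero.1 h0')
  rw [HahnSeries.order_mul (pow_ne_zero _ (sg_ne hc)) h2, order_sg_pow hc] at h5
  have h6 : (0 : ℤ) < A := by exact_mod_cast hA.pos
  have h7 : (0 : ℤ) < -(c * (EE 1 : ℕ)) + (cmp 4 (9 * c) (Dl c)).order := by
    simp only [EE]
    omega
  exact absurd (h5.trans h4) (not_le.2 (mul_pos h6 h7))

theorem part_eq (hc : c = 1 ∨ c = 3) (hA : Odd A) {ω : Kbˣ} (hω : IsPrimitiveRoot ω (c * A))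
    {b : ℤ} {f : L2} (hf : ∀ n, f.coeff n ≠ 0 → n ≡ b [ZMOD c]) :
    ph 1 1 (cA (c * A) b f) =
      ∑ j ∈ range A, algebraMap Kb LO (((ω ^ j) ^ (-b) : Kbˣ) : Kb) * ph (ω ^ j) 1 f := by
  ext n
  have hc0 : 0 < c := by omega
  have h1 : ∀ (ζ : Kbˣ) (f : L2), (ph ζ 1 f).coeff n = ((ζ ^ n : Kbˣ) : Kb) * io (f.coeff n) :=
    fun ζ f => by simpa using coeff_ph_mul ζ one_ne_zero f n
  rw [HahnSeries.coeff_sum]
  simp only [coeff_alg_mul, h1, coeff_cA, one_zpow, Units.val_one, one_mul]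
  by_cases h0 : f.coeff n = 0
  · simp [h0]
  obtain ⟨t, ht⟩ := (hf n h0).symm.dvd
  have h2 : IsPrimitiveRoot (ω ^ c) A := hω.pow (Nat.mul_pos hc0 hA.pos) rfl
  have h3 := root_sum hA h2 (one_dvd A) t
  rw [Nat.div_one] at h3
  have h4 : ∀ j : ℕ, (((ω ^ j) ^ (-b) : Kbˣ) : Kb) * ((((ω ^ j) ^ n : Kbˣ) : Kb) * io (f.coeff n)) =
      ((((ω ^ c) ^ (1 * j)) ^ t : Kbˣ) : Kb) * io (f.coeff n) := fun j => by
    rw [← mul_assoc, ← Units.val_mul, ← zpow_add, show -b + n = c * t by linear_combination ht,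
      one_mul, ← pow_mul, mul_comm c j, pow_mul, zpow_mul, zpow_natCast]
  rw [sum_congr rfl fun j _ => h4 j, ← sum_mul, h3]
  have h5 : n ≡ b [ZMOD ((c * A : ℕ) : ℤ)] ↔ (A : ℤ) ∣ t := by
    rw [Int.modEq_comm, Int.modEq_iff_dvd, ht, Nat.cast_mul]
    exact mul_dvd_mul_iff_left (by exact_mod_cast hc0.ne')
  by_cases h6 : (A : ℤ) ∣ t
  · rw [if_pos h6, if_pos (h5.2 h6), one_mul]
  · rw [if_neg h6, if_neg (mt h5.1 h6), map_zero, zero_mul]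

theorem field3_split (hc : c = 1 ∨ c = 3) (k : ℕ) {a : ℤ} {f : L2}
    (hf : f ∈ Sp c {j | j ≤ 0 ∧ j ≡ a [ZMOD (8 * c)]}) :
    ∃ ρ : ℕ, ρ ≤ 2 ∧ ∃ g ∈ AA c, f = g * (S c ^ ρ) ^ 2 ^ k := by
  obtain ⟨ρ, hρ, h1⟩ : ∃ ρ : ℕ, ρ ≤ 2 ∧ (c : ℤ) ∣ ρ * 2 ^ k - a := by
    rcases hc with rfl | rfl
    · exact ⟨0, by omega, one_dvd _⟩
    · have h1 : ¬ (3 : ℤ) ∣ 2 ^ k := fun h => by
        have := Int.prime_three.dvd_of_dvd_pow h
        omega
      generalize (2 : ℤ) ^ k = x at h1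
      have : (3 : ℤ) ∣ 0 * x - a ∨ (3 : ℤ) ∣ 1 * x - a ∨ (3 : ℤ) ∣ 2 * x - a := by
        have h2 : x % 3 = 1 ∨ x % 3 = 2 := by omega
        have h3 : a % 3 = 0 ∨ a % 3 = 1 ∨ a % 3 = 2 := by omega
        rcases h2 with h2 | h2 <;> rcases h3 with h3 | h3 | h3 <;> omega
      rcases this with h | h | h
      exacts [⟨0, by omega, h⟩, ⟨1, by omega, h⟩, ⟨2, by omega, h⟩]
  have hS := S_ne_zero hc
  refine ⟨ρ, hρ, ?_⟩
  induction hf using Submodule.span_induction with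
  | mem x hx =>
    obtain ⟨j, ⟨hj, hj'⟩, rfl⟩ := hx
    obtain ⟨m, hm⟩ : (c : ℤ) ∣ ρ * 2 ^ k - j := by
      simpa using h1.add ((dvd_mul_left _ 8).trans hj'.dvd)
    have h3 : (0 : ℤ) ≤ ρ * 2 ^ k := by positivity
    obtain ⟨m, rfl⟩ := Int.eq_ofNat_of_zero_le (show 0 ≤ m by rcases hc with rfl | rfl <;> omega)
    refine ⟨sg c ^ m, pow_mem (sg_AA c) _, ?_⟩
    rw [sg_pow, ← pow_mul, ← zpow_natCast, ← zpow_add₀ hS]
    push_cast
    rw [← hm]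
    simp
  | zero => exact ⟨0, zero_mem _, by simp⟩
  | add x y _ _ hx hy =>
    obtain ⟨g, hg, rfl⟩ := hx
    obtain ⟨g', hg', rfl⟩ := hy
    exact ⟨g + g', add_mem hg hg', by ring⟩
  | smul r x _ hx =>
    rcases (by decide : ∀ r : ZMod 2, r = 0 ∨ r = 1) r with rfl | rfl
    · exact ⟨0, zero_mem _, by simp⟩
    · simpa using hx

theorem parts_mem (hc : c = 1 ∨ c = 3) (hA : Odd A) {D : LO} (hD : D ∈ AO c A)
    (hD' : ∀ L ζ l, Node c A L ζ l → IsIntegral (AO c A) (D * ph ζ l (S c))) (k : ℕ) {a : ℤ}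
    {f : L2} (hf : f ∈ Sp c {j | j ≤ 0 ∧ j ≡ a [ZMOD (8 * c)]}) {L l : ℕ} {ζ : Kbˣ}
    (h : Node c A L ζ l) (ρ : ℤ) : cmpO k ρ (ph ζ l f) ∈ NN c A ∧
      IsIntegral (AO c A) (D ^ (5 * 4 ^ k) * cmpO k ρ (ph ζ l f)) := by
  obtain ⟨r, hr, g, hg, h2⟩ := field3_split hc k hf
  have hl := h.odd hA
  obtain ⟨a', ha'⟩ := field3_div hl k ρ
  have h3 : cmp k a' f = cmp k a' g * (S c ^ r) ^ 2 ^ k := by
    simpa [h2] using cmp_mul (cls_pow_two_pow k (S c ^ r)) a' g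
  have hO := cmp_AA hc k hg a'
  rw [cmpO_congr ha', cmpO_ph k a' ζ hl, h3, map_mul, map_pow, map_pow]
  refine ⟨mul_mem (ph_KK h (mem_of_sg hc hO)) (pow_mem (pow_mem (ph_S_mem h) _) _), ?_⟩
  have h4 : cmp k a' g = S c ^ (c * 4 ^ k) * (sg c ^ 4 ^ k * cmp k a' g) := by
    rw [pow_mul, ← Dl, ← mul_assoc, ← mul_pow, mul_comm (Dl c), sg_mul hc, one_pow, one_mul]
  have h5 : 2 ^ k ≤ 4 ^ k := Nat.pow_le_pow_left (by norm_num) k
  have h6 : c * 4 ^ k + r * 2 ^ k ≤ 5 * 4 ^ k := by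
    have h7 : c * 4 ^ k ≤ 3 * 4 ^ k := Nat.mul_le_mul_right _ (by omega)
    have h8 : r * 2 ^ k ≤ 2 * 4 ^ k := Nat.mul_le_mul hr h5
    omega
  obtain ⟨m, hm⟩ := Nat.exists_eq_add_of_le h6
  have h7 : D ^ (5 * 4 ^ k) * (ph ζ l (cmp k a' g) * (ph ζ l (S c) ^ r) ^ 2 ^ k) =
      D ^ m * ((D * ph ζ l (S c)) ^ (c * 4 ^ k + r * 2 ^ k) *
        ph ζ l (sg c ^ 4 ^ k * cmp k a' g)) := by
    conv_lhs => rw [h4, map_mul, map_pow, hm, ← pow_mul]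
    rw [mul_pow, pow_add, pow_add (ph ζ l (S c))]
    ring
  rw [h7]
  exact ((isIntegral_algebraMap (x := (⟨D, hD⟩ : AO c A))).pow m).mul
    (((hD' L ζ l h).pow _).mul (ph_OO hc hA h hO))

end Pool.Agent.Lib.MP_a3366f_nt.Quad.Prog
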