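import Mathlib
import Pool.Agent.Lib.MP_a3366f_nt.Pr.Field3

/-!
Transitivity on the cyclic nodes.
-/

open Finset

namespace Pool.Agent.Lib.MP_a3366f_nt.Quad.Prog

open Ker Zt

variable {c A : ℕ}

theorem trans_U_ne {p : ℕ} (hp : p.Prime) (ho : Odd p) : TL p s + V p s ≠ 0 := by
  intro h
  have hc : 1 = 1 ∨ 1 = 3 := Or.inl rfl
  have h2 := hp.two_le
  have hs : ∀ m : ℕ, s ^ m ∈ Sp 1 {j | j ≤ -(m : ℤ)} := fun m => by
    rw [s_pow]
    exact zpow_mem_Sp (le_refl (-(m : ℤ)))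
  have h1 : V p s ∈ Sp 1 {j | j ≤ -((1 : ℕ) : ℤ)} := by
    rw [← CharTwo.add_eq_zero.1 h]
    exact TL_mem_le hc (by simpa using ho) (by simpa using hs 1)
  have h3 : ∀ m : ℕ, V p (s ^ m) ∈ Sp 1 {j | j ≤ -(m : ℤ)} := fun m => by
    induction m with
    | zero => simpa using hs 0
    | succ m ih =>
      rw [pow_succ, map_mul]
      exact Sp_mul hc (fun x (hx : x ≤ -(m : ℤ)) y (hy : y ≤ -((1 : ℕ) : ℤ)) =>
        show x + y ≤ -((m + 1 : ℕ) : ℤ) by push_cast at hy ⊢; omega) ih h1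
  have h4 := Sp_refine hc (add_mem (TL_mem_le hc (by simpa using ho) (hs p)) (h3 p))
  have h5 := Sp_empty (fun j hj => by
    obtain ⟨h6, n, h7, h8, -⟩ := hj
    rw [mod_coeff_U hp, s_pow] at h7
    have h9 := (supp_S_zpow hc h7).1
    have h10 : j ≤ -(p : ℤ) := h6
    nlinarith) h4
  have h6 := mod_coeff_U hp (s ^ p) (-1)
  rw [h5, s_pow, mul_neg_one, coeff_S_zpow_self hc] at h6
  simp at h6

theorem trans_act (hc : c = 1 ∨ c = 3) (hA : Odd A) (g : GG c A) {L l : ℕ} {ζ : Kbˣ}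
    (h : Node c A L ζ l) : ∃ ζ' d, d ∣ L ∧
      RelG g (ph (ζ ^ c) (c * l) s) (ph ζ' (c * (A / L * d ^ 2)) s) := by
  obtain ⟨ζ', l', h1, h2⟩ := node_act hc hA g h
  have h3 := (h2.pow c).inv
  have h4 := (h1.odd hA).pos.ne'
  obtain ⟨-, d, h5, rfl, -⟩ := h1
  refine ⟨ζ' ^ c, d, h5, ?_⟩
  rw [← ph_sg hc _ (h.odd hA).pos.ne', ← ph_sg hc _ h4, sg, Dl, map_inv₀, map_inv₀, map_pow,
    map_pow]
  exact h3

theorem trans_node {L B d : ℕ} (hA : Odd A) (h : L * B = A) (hd : d ∣ L) :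
    Node c A L 1 (B * d ^ 2) :=
  ⟨⟨B, h.symm⟩, d, hd, by
    rw [← h, Nat.mul_div_cancel_left _ (Odd.of_dvd_nat hA ⟨B, h.symm⟩).pos], one_pow _⟩

theorem trans_mem (hc : c = 1 ∨ c = 3) (hA : Odd A) {L B d : ℕ} (h : L * B = A) (hd : d ∣ L) :
    ph 1 (c * (B * d ^ 2)) s ∈ NN c A := by
  obtain ⟨_, _, -, h1⟩ := trans_act hc hA 1 (trans_node hA h hd)
  simpa using h1.mem

theorem trans_nb {p μ : ℕ} {Q : Polynomial R2} (hp : p.Prime) (hQ : IsMod p Q) (hμ : μ ≠ 0)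
    {y : LO} (h : Q.eval₂ (ev (ph 1 (p * μ) s)) (y ^ 2) = 0) :
    (∃ ζ : Kbˣ, ζ ^ p = 1 ∧ y = ph ζ μ s) ∨ y = ph 1 (μ * p ^ 2) s := by
  obtain ⟨d, ζ, h1, h2, h3⟩ := hQ.2.2.1 1 μ hμ LO (RingHom.id _) y (by simpa using h)
  rcases (Nat.dvd_prime hp).1 h1 with rfl | rfl
  · exact Or.inl ⟨ζ, by simpa using h2, by simpa using h3⟩
  · rw [Nat.div_self hp.pos, pow_one] at h2
    exact Or.inr (by simpa [h2] using h3)

theorem trans_down {L μ : ℕ} {Q : Polynomial R2} (hQ : IsMod L Q) (hμ : μ ≠ 0) {ζ : Kbˣ}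
    (hζ : ζ ^ L = 1) : Q.eval₂ (ev (ph 1 (L * μ) s)) (ph ζ μ s ^ 2) = 0 := by
  simpa using hQ.2.1 1 ζ μ 1 hμ (one_dvd _) (by simpa using hζ)

theorem trans_up {L μ : ℕ} {Q : Polynomial R2} (hQ : IsMod L Q) (hμ : μ ≠ 0) :
    Q.eval₂ (ev (ph 1 (L * μ) s)) (ph 1 (μ * L ^ 2) s ^ 2) = 0 := by
  simpa using hQ.2.1 1 1 μ L hμ dvd_rfl (one_pow _)

theorem trans_root {g : GG c A} {x x' y y' : LO} {Q : Polynomial R2} (h1 : RelG g x x')
    (h2 : RelG g y y') (h : Q.eval₂ (ev x) (y ^ 2) = 0) : Q.eval₂ (ev x') (y' ^ 2) = 0 := by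
  have h3 := h1.eval₂ (h2.pow 2) Q
  rw [h] at h3
  exact h3.unique (relG_FO g (zero_mem _))

/-- The properties of inertia elements that are used. -/
def Inr (k : ℕ) (g : GG c A) : Prop := MulG g k 1 ∧
  ∀ m, m ≠ 0 → ph 1 (c * A * m) s ∈ NN c A → RelG g (ph 1 (c * A * m) s) (ph 1 (c * A * m) s)

theorem inr_one (k : ℕ) : Inr k (1 : GG c A) := ⟨mulG_one k, fun _ _ h => relG_one h⟩

theorem Inr.mul {k : ℕ} {g h : GG c A} (h1 : Inr k g) (h2 : Inr k h) : Inr k (g * h) :=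
  ⟨by simpa using h2.1.comp h1.1, fun m hm h3 => (h2.2 m hm h3).comp (h1.2 m hm h3)⟩

theorem trans_inr (hc : c = 1 ∨ c = 3) (hA : Odd A) (k : ℕ) {L p B : ℕ} (h : L * (p * B) = A)
    {ξ : Kbˣ} (hξ : ξ ^ p = 1) : ∃ ι : GG c A, Inr k ι ∧
      RelG ι (ph 1 (c * (p * B)) s) (ph 1 (c * (p * B)) s) ∧
      ∀ ζ, ph ζ (c * B) s ∈ NN c A → RelG ι (ph ζ (c * B) s) (ph (ζ * ξ) (c * B) s) := by
  have hA0 := hA.pos.ne'
  have hc0 : c ≠ 0 := by omega
  have hB : c * B ≠ 0 := mul_ne_zero hc0 fun h0 => hA0 (by simp [← h, h0])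
  have hp : c * (p * B) ≠ 0 := mul_ne_zero hc0 fun h0 => hA0 (by simp [← h, h0])
  obtain ⟨z, hz⟩ := IsAlgClosed.exists_pow_nat_eq (ξ : Kb) (Nat.pos_of_ne_zero hB)
  have hz0 : z ≠ 0 := fun h0 => ξ.ne_zero (by rw [← hz, h0, zero_pow hB])
  have h1 : Units.mk0 z hz0 ^ (c * B) = ξ := Units.ext (by simpa using hz)
  have h2 : Units.mk0 z hz0 ^ (c * (p * B)) = 1 := by
    rw [show c * (p * B) = c * B * p by ring, pow_mul, h1, hξ]
  have h3 : Units.mk0 z hz0 ^ (c * A) = 1 := by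
    rw [← h, show c * (L * (p * B)) = c * (p * B) * L by ring, pow_mul, h2, one_pow]
  obtain ⟨ι, hι⟩ := inertia hc hA h3
  refine ⟨ι, ⟨fun y y' a h4 h5 => ?_, fun m hm h4 => ?_⟩, ?_, fun ζ h4 => ?_⟩
  · rw [mul_one, h4.unique (hι y h4.mem)]
    exact h5.twO _
  · have h5 := hι _ h4
    rwa [twO_ph _ _ (mul_ne_zero (mul_ne_zero hc0 hA0) hm), pow_mul, h3, one_pow, one_mul] at h5
  · have h5 := hι _ (by simpa using trans_mem hc hA h (one_dvd _))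
    rwa [twO_ph _ _ hp, h2, one_mul] at h5
  · have h5 := hι _ h4
    rwa [twO_ph _ _ hB, h1] at h5

theorem trans_dec (hc : c = 1 ∨ c = 3) (hA : Odd A) (k : ℕ) (g : GG c A) (L : ℕ) :
    ∀ B, L * B = A → ∃ ι ι' : GG c A, Inr k ι ∧ Inr k ι' ∧
      RelG (ι * g * ι') (ph 1 (c * B) s) (ph 1 (c * B) s) := by
  have hA0 := hA.pos.ne'
  have hc0 : c ≠ 0 := by omega
  induction L using induction_on_primes with
  | zero => exact fun B h => absurd (by simp [← h]) hA0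
  | one =>
    intro B h
    rw [one_mul] at h
    rw [h]
    exact ⟨1, 1, inr_one k, inr_one k, relG_FO _ (AO_le (uu_AO c A))⟩
  | prime_mul p L hp ih =>
    intro B h
    have h1 : L * (p * B) = A := by rw [← h]; ring
    have hpo : Odd p := hA.of_dvd_nat ⟨L * B, by rw [← h]; ring⟩
    have hB : c * B ≠ 0 := mul_ne_zero hc0 fun h0 => hA0 (by simp [← h, h0])
    obtain ⟨ι, ι', h2, h3, h4⟩ := ih _ h1
    obtain ⟨Q, hQ⟩ := ex_mod hpo
    have hx : ph 1 (c * B) s ∈ NN c A := by simpa using trans_mem hc hA h (one_dvd _)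
    have e : c * (p * B) = p * (c * B) := by ring
    have key : ∀ ξ : Kbˣ, ξ ^ p = 1 → ∃ ι₀ : GG c A, Inr k ι₀ ∧ ∃ z,
        RelG ι₀ (ph 1 (c * B) s) (ph ξ (c * B) s) ∧ RelG (ι * g * ι') (ph ξ (c * B) s) z ∧
        ((∃ ζ : Kbˣ, ζ ^ p = 1 ∧ z = ph ζ (c * B) s) ∨ z = ph 1 (c * B * p ^ 2) s) := by
      intro ξ hξ
      obtain ⟨ι₀, h5, -, h6⟩ := trans_inr hc hA k h1 hξ
      have h7 := h6 1 hx
      rw [one_mul] at h7
      obtain ⟨z, hz⟩ := ex_relG (ι * g * ι') h7.mem'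
      rw [e] at h4
      exact ⟨ι₀, h5, z, h7, hz, trans_nb hp hQ hB (trans_root h4 hz (trans_down hQ hB hξ))⟩
    have key2 : ∃ ι₀ : GG c A, Inr k ι₀ ∧ ∃ ζ : Kbˣ, ζ ^ p = 1 ∧
        RelG (ι * g * ι' * ι₀) (ph 1 (c * B) s) (ph ζ (c * B) s) := by
      obtain ⟨ω, hω⟩ := exists_root hpo
      obtain ⟨ι₀, h5, z, h6, h7, ⟨ζ, h8, rfl⟩ | rfl⟩ := key 1 (one_pow _)
      · exact ⟨ι₀, h5, ζ, h8, h6.comp h7⟩
      obtain ⟨ι₁, h8, z, h9, h10, ⟨ζ, h11, rfl⟩ | rfl⟩ := key ω hω.pow_eq_one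
      · exact ⟨ι₁, h8, ζ, h11, h9.comp h10⟩
      exact absurd (ph_s_inj hB hB (h10.inj h7)).2 (hω.ne_one hp.one_lt)
    obtain ⟨ι₀, h5, ζ, h6, h7⟩ := key2
    obtain ⟨ι₁, h8, -, h9⟩ := trans_inr hc hA k h1 (ξ := ζ⁻¹) (by rw [inv_pow, h6, inv_one])
    have h10 := h7.comp (h9 ζ h7.mem')
    rw [mul_inv_cancel] at h10
    exact ⟨ι₁ * ι, ι' * ι₀, h8.mul h2, h3.mul h5, by simpa only [mul_assoc] using h10⟩

theorem trans_move (hc : c = 1 ∨ c = 3) (hA : Odd A) {p : ℕ} (hp : p.Prime) (h : p ∣ A) :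
    ∃ g : GG c A, ¬ RelG g (ph 1 (c * A * p) s) (ph 1 (c * A * p) s) := by
  by_contra h1
  simp only [not_exists, not_not] at h1
  have hpo := hA.of_dvd_nat h
  have hc1 : 1 = 1 ∨ 1 = 3 := Or.inl rfl
  have hcA : c * A ≠ 0 := mul_ne_zero (by omega) hA.pos.ne'
  obtain ⟨P, hP⟩ := exists_poly (w := 1) (TL_mem_le hc1 (n := p) (by simpa using hpo)
    (f := s) (by simpa [s] using zpow_mem_Sp (c := 1) (J := {j | j ≤ -1}) (j := -1) (le_refl (-1 : ℤ))))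
  have h2 : ph 1 (c * A) (TL p s + V p s) = ev (uu c A) (Polynomial.X ^ 1 * P) +
      ph 1 (c * A * p) s := by
    rw [map_add, hP, hom_ev, ph_V hp.ne_zero hcA, mul_comm p, uu]
  have h3 : ev (uu c A) (Polynomial.X ^ 1 * P) ∈ AO c A := by
    rw [ev_eq_sum]
    exact sum_mem fun e _ => pow_mem (uu_AO c A) e
  obtain ⟨B, hB⟩ := h
  have h4 := ph_sg_int hc hA (trans_node (c := c) hA hB.symm dvd_rfl)
  rw [ph_sg hc _ (mul_ne_zero (fun h0 => hA.pos.ne' (by simp [hB, h0])) (pow_ne_zero _ hp.ne_zero)),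
    one_pow, show c * (B * p ^ 2) = c * A * p by rw [hB]; ring] at h4
  have h5 : ph 1 (c * A) (TL p s + V p s) ≠ 0 := (map_ne_zero _).2 (trans_U_ne hp hpo)
  have h6 := order_fixedO hc hA (add_mem (FO_le (AO_le h3)) (h1 1).mem)
    ((isIntegral_algebraMap (x := (⟨_, h3⟩ : AO c A))).add h4) (by rwa [h2] at h5)
    fun g => (relG_FO g (AO_le h3)).add (h1 g)
  rw [← h2] at h6
  have h7 : Ge 1 (TL p s + V p s) := fun n hn => by
    by_contra h8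
    rw [mod_coeff_U hp, s, ← zpow_neg_one] at h8
    have h9 := (supp_S_zpow hc1 h8).1
    obtain ⟨a, ha⟩ := odd_of_coeff_S_zpow (by decide) h8
    have h10 : (2 : ℤ) ≤ p := by exact_mod_cast hp.two_le
    rcases (show n = 0 ∨ n ≤ -1 by omega) with rfl | h11
    · omega
    · nlinarith
  have h8 := (h7.ph 1 hcA).le (mt HahnSeries.coeff_order_eq_zero.1 h5)
  have h9 : (0 : ℤ) < (c * A : ℕ) := by exact_mod_cast Nat.pos_of_ne_zero hcA
  omega

theorem trans_side (hc : c = 1 ∨ c = 3) (hA : Odd A) {p L B : ℕ} (hp : p.Prime)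
    (h : L * (p * B) = A) (hL : ¬ p ∣ L) :
    ∃ γ : GG c A, RelG γ (ph 1 (c * (p * B)) s) (ph 1 (c * (p * B)) s) ∧
      ¬ RelG γ (ph 1 (c * B * p ^ 2) s) (ph 1 (c * B * p ^ 2) s) := by
  have hA0 := hA.pos.ne'
  have hc0 : c ≠ 0 := by omega
  have hB : c * B ≠ 0 := mul_ne_zero hc0 fun h0 => hA0 (by simp [← h, h0])
  have hL0 : L ≠ 0 := fun h0 => hA0 (by simp [← h, h0])
  have h1 : p * (L * B) = A := by rw [← h]; ring
  obtain ⟨g, hg⟩ := trans_move hc hA hp ⟨_, h1.symm⟩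
  obtain ⟨ι, ι', h2, h3, h4⟩ := trans_dec hc hA 0 g L _ h
  refine ⟨_, h4, fun h5 => hg ?_⟩
  have e1 : c * A * p = L * (c * B) * p ^ 2 := by rw [← h]; ring
  have hu : ph 1 (c * A * p) s ∈ NN c A := by
    have := trans_mem hc hA h1 dvd_rfl
    rwa [show c * (L * B * p ^ 2) = c * A * p by rw [← h]; ring] at this
  obtain ⟨z, hz⟩ := ex_relG (ι * g * ι') hu
  obtain ⟨Q, hQ⟩ := ex_mod (hA.of_dvd_nat ⟨_, h1.symm⟩)
  obtain ⟨Q', hQ'⟩ := ex_mod (hA.of_dvd_nat ⟨_, h.symm⟩)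
  have hμ := mul_ne_zero hL0 hB
  have h6 : RelG (ι * g * ι') (ph 1 (p * (L * (c * B))) s) (ph 1 (p * (L * (c * B))) s) := by
    rw [show p * (L * (c * B)) = c * A by rw [← h]; ring]
    exact relG_FO _ (AO_le (uu_AO c A))
  rw [e1] at hz
  rcases trans_nb hp hQ hμ (trans_root h6 hz (trans_up hQ hμ)) with ⟨ζ, h7, rfl⟩ | rfl
  · exfalso
    obtain ⟨η, hη⟩ := IsAlgClosed.exists_pow_nat_eq (ζ : Kb) (Nat.pos_of_ne_zero hL0)
    have hη0 : η ≠ 0 := fun h0 => ζ.ne_zero (by rw [← hη, h0, zero_pow hL0])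
    have h8 : Units.mk0 η hη0 ^ L = ζ := Units.ext (by simpa using hη)
    have hν := mul_ne_zero hB (pow_ne_zero 2 hp.ne_zero)
    rw [mul_assoc L, ← h8] at hz
    obtain ⟨d, ξ, h9, -, h10⟩ := hQ'.2.2.1 _ _ hB LO (RingHom.id _) _
      (by simpa using trans_root hz h5 (trans_down hQ' hν (one_pow _)))
    have hd : d ≠ 0 := fun h0 => hL0 (by simpa [h0] using h9)
    have h11 := (ph_s_inj hν (mul_ne_zero hB (pow_ne_zero 2 hd)) h10).1
    rw [← Nat.pow_left_injective two_ne_zero (mul_left_cancel₀ hB h11)] at h9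
    exact hL h9
  · rw [← e1] at hz
    obtain ⟨y, h7, h8⟩ := hz.of_mul
    obtain ⟨y', h9, h10⟩ := h8.of_mul
    rwa [h7.unique (h3.2 p hp.ne_zero hu), h10.inj (h2.2 p hp.ne_zero hu)] at h9

theorem trans_ex (hc : c = 1 ∨ c = 3) (hA : Odd A) (L : ℕ) :
    ∀ B, L * B = A → ∃ g : GG c A, RelG g (ph 1 (c * B) s) (ph 1 (c * A * L) s) := by
  have hA0 := hA.pos.ne'
  have hc0 : c ≠ 0 := by omega
  induction L using induction_on_primes with
  | zero => exact fun B h => absurd (by simp [← h]) hA0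
  | one =>
    intro B h
    rw [one_mul] at h
    exact ⟨1, by rw [h, mul_one]; exact relG_FO _ (AO_le (uu_AO c A))⟩
  | prime_mul p L hp ih =>
    intro B h
    have h1 : L * (p * B) = A := by rw [← h]; ring
    have hB : c * B ≠ 0 := mul_ne_zero hc0 fun h0 => hA0 (by simp [← h, h0])
    have hL0 : L ≠ 0 := fun h0 => hA0 (by simp [← h, h0])
    obtain ⟨g, hg⟩ := ih _ h1
    obtain ⟨Q, hQ⟩ := ex_mod (hA.of_dvd_nat (show p ∣ A from ⟨L * B, by rw [← h]; ring⟩))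
    have e : c * (p * B) = p * (c * B) := by ring
    have hx : ph 1 (c * B) s ∈ NN c A := by simpa using trans_mem hc hA h (one_dvd _)
    have ht : ph 1 (c * A * (p * L)) s ∈ NN c A := by
      have := trans_mem hc hA h dvd_rfl
      rwa [show c * (B * (p * L) ^ 2) = c * A * (p * L) by rw [← h]; ring] at this
    have down : ∀ (g' : GG c A) (ζ : Kbˣ), ζ ^ p = 1 →
        RelG g' (ph ζ (c * B) s) (ph 1 (c * A * (p * L)) s) →
        ∃ g : GG c A, RelG g (ph 1 (c * B) s) (ph 1 (c * A * (p * L)) s) := by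
      intro g' ζ hζ h2
      obtain ⟨ι, -, -, h3⟩ := trans_inr hc hA 0 h1 hζ
      have h4 := h3 1 hx
      rw [one_mul] at h4
      exact ⟨_, h4.comp h2⟩
    obtain ⟨z, hz⟩ := ex_relG g⁻¹ ht
    have hμ : c * B * L ^ 2 ≠ 0 := mul_ne_zero hB (pow_ne_zero _ hL0)
    have h2 := trans_up hQ hμ
    rw [show p * (c * B * L ^ 2) = c * A * L by rw [← h]; ring,
      show c * B * L ^ 2 * p ^ 2 = c * A * (p * L) by rw [← h]; ring] at h2
    have h3 := hz.symm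
    rw [inv_inv] at h3
    rw [e] at hg
    rcases trans_nb hp hQ hB (trans_root hg.symm hz h2) with ⟨ζ, h4, rfl⟩ | rfl
    · exact down g ζ h4 h3
    by_cases hL : p ∣ L
    · exfalso
      obtain ⟨L', rfl⟩ := hL
      have h4 : L' * (B * p ^ 2) = A := by rw [← h]; ring
      have hL' : L' ≠ 0 := right_ne_zero_of_mul hL0
      obtain ⟨ζ, d, h5, h6⟩ := trans_act hc hA g (trans_node (c := c) hA h4 (one_dvd _))
      rw [one_pow, one_pow, mul_one, ← mul_assoc, show A / L' = B * p ^ 2 by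
        rw [← h4, Nat.mul_div_cancel_left _ (Nat.pos_of_ne_zero hL')]] at h6
      have hd : d ≠ 0 := fun h0 => hL' (by simpa [h0] using h5)
      have hp2 := pow_ne_zero 2 hp.ne_zero
      have h7 := (ph_s_inj (mul_ne_zero (mul_ne_zero hc0 hA0) (mul_ne_zero hp.ne_zero hL0))
        (by have := right_ne_zero_of_mul hB; positivity) (h3.unique h6)).1
      have h8 : (p * L') ^ 2 = d ^ 2 := mul_left_cancel₀ (mul_ne_zero hB hp2)
        (by rw [← h4] at h7; linarith)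
      have h9 := Nat.le_of_dvd (Nat.pos_of_ne_zero hL') h5
      have h10 := Nat.pow_left_injective two_ne_zero h8
      have := hp.two_le
      have := Nat.pos_of_ne_zero hL'
      nlinarith
    · obtain ⟨γ, h4, h5⟩ := trans_side hc hA hp h1 hL
      obtain ⟨y, hy⟩ := ex_relG γ h3.mem
      rw [e] at h4
      rcases trans_nb hp hQ hB (trans_root h4 hy (trans_up hQ hB)) with ⟨ζ, h6, rfl⟩ | rfl
      · exact down _ ζ h6 (hy.symm.comp h3)
      · exact absurd hy h5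

theorem trans_top (hc : c = 1 ∨ c = 3) (hA : Odd A) (k : ℕ) (g : GG c A) :
    ∃ h : GG c A, MulG h k 1 ∧ RelG (h * g) (ph 1 c s) (ph 1 (c * A ^ 2) s) := by
  obtain ⟨g₀, h1⟩ := trans_ex hc hA A 1 (mul_one A)
  obtain ⟨ι, ι', h2, h3, h4⟩ := trans_dec hc hA k (g₀⁻¹ * g) A 1 (mul_one A)
  obtain ⟨β₀, -, h5⟩ := ex_mulG hc hA g₀ k
  obtain ⟨β₁, -, h6⟩ := ex_mulG hc hA g₀⁻¹ k
  obtain ⟨β₂, -, h7⟩ := ex_mulG hc hA g k
  obtain ⟨β₃, -, h8⟩ := ex_mulG hc hA g⁻¹ k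
  refine ⟨g₀ * (ι * (g₀⁻¹ * g) * ι' * g⁻¹), ?_, ?_⟩
  · refine ((h8.comp (h3.1.comp ((h7.comp h6).comp h2.1))).comp h5).congr ?_
    have h9 := (h5.inv_mul hc hA h6).mul (h7.inv_mul hc hA h8)
    rw [mul_one] at h9
    convert h9 using 1
    ring
  · have h9 := h4.comp h1
    rw [mul_one, mul_assoc c, ← sq] at h9
    simpa only [mul_assoc, inv_mul_cancel, mul_one] using h9

end Pool.Agent.Lib.MP_a3366f_nt.Quad.Prog
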