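import Mathlib
import Pool.Agent.Lib.MP_a3366f_nt.Pr.Trans

/-!
No part of a series with a pole vanishes.
-/

open Finset

namespace Pool.Agent.Lib.MP_a3366f_nt.Quad.Prog

open Ker Zt

variable {c A : ℕ}

theorem ne_aux1 (hA : Odd A) {ω : Kbˣ} (hω : IsPrimitiveRoot ω (c * A)) (j : ℕ) :
    Node c A A (ω ^ j) 1 :=
  ⟨dvd_rfl, 1, one_dvd _, by rw [Nat.div_self hA.pos]; simp, by
    rw [Nat.div_one, ← pow_mul, mul_comm j, pow_mul, hω.pow_eq_one, one_pow]⟩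

theorem ne_aux2 (hc : c = 1 ∨ c = 3) {g : GG c A} {ζ ζ' : Kbˣ} {l l' : ℕ} (hl : l ≠ 0)
    (hl' : l' ≠ 0) (h : RelG g (ph ζ l (S c)) (ph ζ' l' (S c))) :
    RelG g (ph (ζ ^ c) (c * l) s) (ph (ζ' ^ c) (c * l') s) := by
  rw [← ph_sg hc ζ hl, ← ph_sg hc ζ' hl', sg, Dl, map_inv₀, map_inv₀, map_pow, map_pow]
  exact (h.pow c).inv

theorem part_ne (hc : c = 1 ∨ c = 3) (hA : Odd A) {k : ℕ} (hk : 4 ≤ k) {a b : ℤ} (ha : Odd a)
    (hb : b ≡ a [ZMOD c]) {f : L2} (hf : f ∈ Sp c {j | j ≤ 0 ∧ j ≡ a [ZMOD (8 * c)]})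
    (h0 : f.order < 0) : ∀ r ∈ cl k 3 a, cmp k r (cA (c * A) b f) ≠ 0 := by
  intro r hr hz
  have hc0 : c ≠ 0 := by omega
  have hA0 : A ≠ 0 := hA.pos.ne'
  have hcA : Odd (c * A) := Odd.mul (by rcases hc with rfl | rfl <;> decide) hA
  obtain ⟨ω, hω⟩ := exists_root hcA
  have hf0 : f ≠ 0 := by
    rintro rfl
    simp at h0
  have hs : ∀ n, f.coeff n ≠ 0 → n ≡ a [ZMOD (8 * c)] := fun n hn => by
    obtain ⟨j, hj, -, h1⟩ := supp_Sp hc hf hn
    exact h1.trans hj.2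
  have hm : f.coeff f.order ≠ 0 := mt HahnSeries.coeff_order_eq_zero.1 hf0
  have h1 := part_eq hc hA hω (b := b) (f := f) fun n hn =>
    ((hs n hn).of_mul_left 8).trans hb.symm
  have h2 := cmpO_ph k r 1 odd_one (cA (c * A) b f)
  rw [hz, map_zero, h1, Nat.cast_one, one_mul] at h2
  obtain ⟨g9, β, hβ, hg9, h9⟩ := ex_nineO hc hA hk
  have hr8 : r ≡ a [ZMOD 2 ^ 3] := (mem_filter.1 hr).2
  have hro : Odd r := by
    rw [Int.odd_iff] at ha ⊢
    rw [Int.ModEq] at hr8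
    omega
  have h3 : (A : ℤ) ^ 2 * f.order ≡ r [ZMOD 2 ^ 3] := by
    have h4 : f.order ≡ a [ZMOD 2 ^ 3] := (hs _ hm).of_mul_right _
    have h5 : (A : ℤ) ^ 2 ≡ 1 [ZMOD 2 ^ 3] := by
      obtain ⟨m, rfl⟩ := hA
      obtain ⟨l, hl⟩ := Int.even_mul_succ_self (m : ℤ)
      refine Int.modEq_iff_dvd.2 ⟨-l, ?_⟩
      push_cast
      linear_combination (-4) * hl
    simpa using (h5.mul h4).trans (by simpa using hr8.symm)
  obtain ⟨n, rfl⟩ := Nat.exists_eq_add_of_le' (show 3 ≤ k by omega)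
  obtain ⟨m, h4⟩ := orbit_nine h9 hro h3 n
  obtain ⟨h, hh, h5⟩ := trans_top hc hA (n + 3) (g9 ^ m)
  have h6 := (hg9.pow m).comp hh
  rw [mul_one] at h6
  choose z l hN hR using fun j => node_act hc hA (h * g9 ^ m) (ne_aux1 hA hω j)
  have hl : ∀ j, l j ≠ 0 := fun j => ((hN j).odd hA).pos.ne'
  obtain ⟨D, hD, -, hD'⟩ := ex_D hc hA
  have h7 := h6.cmpO (hβ.pow.pow) (relG_sum (range A) fun j _ =>
    (relG_alg (h * g9 ^ m) (((ω ^ j) ^ (-b) : Kbˣ) : Kb)).mul ((hR j).ph_Sp hf)) (fun ρ => by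
      rw [map_sum]
      refine sum_mem fun j _ => ?_
      rw [cmpO_alg_mul]
      exact mul_mem (relG_alg 1 _).mem (parts_mem hc hA hD hD' _ hf (ne_aux1 hA hω j) ρ).1) r
  rw [h2] at h7
  have h8 := congrArg (fun y : LO => y.coeff ((A : ℤ) ^ 2 * f.order))
    (h7.unique (relG_FO _ (zero_mem _)))
  have hS := fun j => ne_aux2 hc one_ne_zero (hl j) (hR j)
  have h10 : l 0 = A ^ 2 := by
    have h11 := hS 0
    rw [pow_zero, one_pow, mul_one] at h11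
    exact Nat.eq_of_mul_eq_mul_left (Nat.pos_of_ne_zero hc0)
      (ph_s_inj (mul_ne_zero hc0 (hl 0)) (mul_ne_zero hc0 (pow_ne_zero _ hA0)) (h11.unique h5)).1
  have h11 : ∀ j ∈ range A, j ≠ 0 → l j < A ^ 2 := fun j hj hj0 => by
    obtain ⟨-, d, hd, h12, h13⟩ := hN j
    rw [Nat.div_self hA.pos, one_mul] at h12
    rcases (Nat.le_of_dvd hA.pos hd).lt_or_eq with h14 | h14
    · rw [h12]
      exact Nat.pow_lt_pow_left h14 two_ne_zero
    · exfalso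
      rw [h14, Nat.div_self hA.pos, mul_one] at h13
      have h15 := hS j
      rw [h13, h12, h14, mul_one] at h15
      have h16 := (ph_s_inj hc0 hc0 (h15.inj h5)).2
      rw [← pow_mul, mul_comm j] at h16
      have h17 := Nat.dvd_of_mul_dvd_mul_left (Nat.pos_of_ne_zero hc0) (hω.dvd_of_pow_eq_one _ h16)
      exact absurd (Nat.le_of_dvd (Nat.pos_of_ne_zero hj0) h17) (not_le.2 (mem_range.1 hj))
  rw [coeff_cmpO, if_pos h4, HahnSeries.coeff_sum,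
    sum_eq_single_of_mem 0 (mem_range.2 hA.pos), coeff_alg_mul] at h8
  · have h12 := coeff_ph_mul (z 0) (hl 0) f f.order
    rw [h10] at h12 h8
    rw [Nat.cast_pow] at h12
    rw [h12] at h8
    refine mul_ne_zero (Units.ne_zero _) (mul_ne_zero (Units.ne_zero _) ?_) h8
    exact (map_ne_zero _).2 hm
  · intro j hj hj0
    have h12 : ((l j : ℕ) : ℤ) < (A : ℤ) ^ 2 := by exact_mod_cast h11 j hj hj0
    rw [coeff_alg_mul, ((ge_order f).ph (z j) (hl j)) _ (by nlinarith), mul_zero]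

end Pool.Agent.Lib.MP_a3366f_nt.Quad.Prog
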