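import Mathlib
import Pool.Agent.Lib.MP_a3366f_nt.Pr.Ne

/-!
The norm bound for the parts along classes modulo an arbitrary modulus.
-/

open Finset

namespace Pool.Agent.Lib.MP_a3366f_nt.Quad.Prog

open Ker Zt

variable {c A : ℕ}

theorem norm_order_prod {ι : Type} (s : Finset ι) {f : ι → LO} (h : ∀ i ∈ s, f i ≠ 0) :
    (∏ i ∈ s, f i).order = ∑ i ∈ s, (f i).order := by
  induction s using Finset.cons_induction with
  | empty => simp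
  | cons a s ha ih =>
    have h1 := fun i hi => h i (mem_cons_of_mem hi)
    rw [prod_cons, sum_cons, HahnSeries.order_mul (h a (mem_cons_self _ _)) (prod_ne_zero_iff.2 h1),
      ih h1]

theorem norm_order_ph {g : L2} (h0 : g ≠ 0) : (ph 1 1 g).order = g.order := by
  have h1 : ph 1 1 g ≠ 0 := (map_ne_zero _).2 h0
  refine le_antisymm (HahnSeries.order_le_of_coeff_ne_zero ?_) ?_
  · have := coeff_ph_mul 1 one_ne_zero g g.order
    rw [Nat.cast_one, one_mul] at this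
    rw [this]
    exact mul_ne_zero (Units.ne_zero _)
      ((map_ne_zero _).2 (mt HahnSeries.coeff_order_eq_zero.1 h0))
  · obtain ⟨m, h2, h3⟩ := ph_ne one_ne_zero (mt HahnSeries.coeff_order_eq_zero.1 h1)
    rw [h2, Nat.cast_one, one_mul]
    exact HahnSeries.order_le_of_coeff_ne_zero h3

theorem norm_node_le (hA : Odd A) {L l : ℕ} {ζ : Kbˣ} (h : Node c A L ζ l) : l ≤ A ^ 2 := by
  obtain ⟨⟨u, h1⟩, d, h2, rfl, -⟩ := h
  have hA0 := hA.pos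
  have hL : 0 < L := Nat.pos_of_ne_zero fun h => by simp [h] at h1; omega
  have h3 : d ≤ L := Nat.le_of_dvd hL h2
  have h4 : L ≤ A := Nat.le_of_dvd hA0 ⟨u, h1⟩
  have h5 : A / L = u := by rw [h1, Nat.mul_div_cancel_left _ hL]
  rw [h5]
  calc u * d ^ 2 ≤ u * L ^ 2 := by gcongr
    _ = A * L := by rw [h1]; ring
    _ ≤ A * A := by gcongr
    _ = A ^ 2 := by ring

/-- A weighted sum of the values of `f` at a family of nodes. -/
noncomputable def normY (w : Fin A → Kb) (f : L2) (ν : Fin A → ℕ × Kbˣ × ℕ) : LO :=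
  ∑ j, algebraMap Kb LO (w j) * ph (ν j).2.1 (ν j).2.2 f

theorem norm_cmp (w : Fin A → Kb) (f : L2) (ν : Fin A → ℕ × Kbˣ × ℕ) (k : ℕ) (ρ : ℤ) :
    cmpO k ρ (normY w f ν) =
      ∑ j, algebraMap Kb LO (w j) * cmpO k ρ (ph (ν j).2.1 (ν j).2.2 f) := by
  simp only [normY, map_sum, cmpO_alg_mul]

theorem norm_mem (hc : c = 1 ∨ c = 3) (hA : Odd A) {D : LO} (hD : D ∈ AO c A)
    (hD' : ∀ L ζ l, Node c A L ζ l → IsIntegral (AO c A) (D * ph ζ l (S c))) (k : ℕ) {a : ℤ}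
    {f : L2} (hf : f ∈ Sp c {j | j ≤ 0 ∧ j ≡ a [ZMOD (8 * c)]}) (w : Fin A → Kb)
    {ν : Fin A → ℕ × Kbˣ × ℕ} (h : ∀ j, Node c A (ν j).1 (ν j).2.1 (ν j).2.2) (ρ : ℤ) :
    cmpO k ρ (normY w f ν) ∈ NN c A ∧
      IsIntegral (AO c A) (D ^ (5 * 4 ^ k) * cmpO k ρ (normY w f ν)) := by
  rw [norm_cmp]
  refine ⟨sum_mem fun j _ => mul_mem (FO_le ((FO c A).algebraMap_mem _))
    (parts_mem hc hA hD hD' k hf (h j) ρ).1, ?_⟩
  rw [mul_sum]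
  refine IsIntegral.sum _ fun j _ => ?_
  rw [mul_left_comm]
  exact (isIntegral_algebraMap (R := AO c A) (A := LO)
    (x := ⟨algebraMap Kb LO (w j), (AO c A).algebraMap_mem _⟩)).mul
    (parts_mem hc hA hD hD' k hf (h j) ρ).2

theorem norm_act (hc : c = 1 ∨ c = 3) (hA : Odd A) (k : ℕ) {a : ℤ}
    {f : L2} (hf : f ∈ Sp c {j | j ≤ 0 ∧ j ≡ a [ZMOD (8 * c)]}) (w : Fin A → Kb)
    {ν : Fin A → ℕ × Kbˣ × ℕ} (h : ∀ j, Node c A (ν j).1 (ν j).2.1 (ν j).2.2) (ρ : ℤ)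
    (g : GG c A) : ∃ (ν' : Fin A → ℕ × Kbˣ × ℕ) (ρ' : ℤ),
      (∀ j, Node c A (ν' j).1 (ν' j).2.1 (ν' j).2.2) ∧ ρ' ∈ Ico (0 : ℤ) (2 ^ k) ∧
        RelG g (cmpO k ρ (normY w f ν)) (cmpO k ρ' (normY w f ν')) := by
  obtain ⟨D, hD, -, hD'⟩ := ex_D hc hA
  choose ζ l h1 h2 using fun j => node_act hc hA g (h j)
  obtain ⟨β, hβ, h3⟩ := ex_mulG hc hA g k
  have h0 : (0 : ℤ) < 2 ^ k := by positivity
  refine ⟨fun j => ((ν j).1, ζ j, l j), ρ * β ^ 2 % 2 ^ k, h1,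
    mem_Ico.2 ⟨Int.emod_nonneg _ h0.ne', Int.emod_lt_of_pos _ h0⟩, ?_⟩
  rw [cmpO_congr (Int.mod_modEq _ _)]
  exact h3.cmpO hβ.pow (relG_sum _ fun j _ => (relG_alg g (w j)).mul ((h2 j).ph_Sp hf))
    (fun r => (norm_mem hc hA hD hD' k hf w h r).1) ρ

theorem norm_neg_order (hA : Odd A) {k : ℕ} {f : L2} (w : Fin A → Kb)
    {ν : Fin A → ℕ × Kbˣ × ℕ} (h : ∀ j, Node c A (ν j).1 (ν j).2.1 (ν j).2.2) {ρ : ℤ}
    {T : Finset ℤ} {M : ℕ} (hT : ∀ n < 0, f.coeff n ≠ 0 → n ∈ T ∧ -(M : ℤ) ≤ n)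
    (h1 : (cmpO k ρ (normY w f ν)).order < 0) :
    -((A : ℤ) ^ 2 * M) ≤ (cmpO k ρ (normY w f ν)).order ∧ ∃ j, ∃ m ∈ T,
      cmpO k ((ν j).2.2 * m) (normY w f ν) = cmpO k ρ (normY w f ν) := by
  have h0 : cmpO k ρ (normY w f ν) ≠ 0 := fun h0 => by simp [h0] at h1
  have h2 := mt HahnSeries.coeff_order_eq_zero.1 h0
  generalize (cmpO k ρ (normY w f ν)).order = n at h1 h2
  have h3 : n ≡ ρ [ZMOD 2 ^ k] := cls_cmpO k ρ _ n h2
  rw [coeff_cmpO, if_pos h3, normY, HahnSeries.coeff_sum] at h2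
  obtain ⟨j, -, h4⟩ := exists_ne_zero_of_sum_ne_zero h2
  rw [coeff_alg_mul] at h4
  have hl := ((h j).odd hA).pos
  obtain ⟨m, rfl, h5⟩ := ph_ne hl.ne' (right_ne_zero_of_mul h4)
  have hl' : (0 : ℤ) < (ν j).2.2 := by exact_mod_cast hl
  have h6 : ((ν j).2.2 : ℤ) ≤ A ^ 2 := by exact_mod_cast norm_node_le hA (h j)
  have h7 := hT m (by by_contra h7; nlinarith) h5
  refine ⟨?_, j, m, h7.1, cmpO_congr h3 _⟩
  have h8 : (0 : ℤ) ≤ M := by positivity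
  nlinarith [h7.2]

theorem norm_arith {p r W k t M : ℕ} {d x : ℤ} (h1 : (p : ℤ) ≤ W * 2 ^ k)
    (h2 : (r : ℤ) ≤ W * (A * t))
    (h3 : x ≤ -(p * (((5 * 4 ^ k : ℕ) : ℤ) * d)) + r * (A ^ 2 * M)) :
    x ≤ (W * (5 * d.natAbs + A ^ 3) : ℕ) * (8 ^ k + t * M : ℤ) := by
  have h14 : (8 : ℤ) ^ k = 2 ^ k * 4 ^ k := by rw [← mul_pow]; norm_num
  have b1 : -((p : ℤ) * (((5 * 4 ^ k : ℕ) : ℤ) * d)) ≤ W * 2 ^ k * (5 * 4 ^ k * |d|) := by
    rw [← mul_neg, ← mul_neg]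
    push_cast
    calc (p : ℤ) * (5 * 4 ^ k * -d) ≤ p * (5 * 4 ^ k * |d|) := by
          gcongr
          exact neg_le_abs _
      _ ≤ _ := by gcongr
  have b2 : (r : ℤ) * (A ^ 2 * M) ≤ W * (A * t) * (A ^ 2 * M) := by gcongr
  have b3 : (0 : ℤ) ≤ W * (5 * |d| * (t * M) + A ^ 3 * 8 ^ k) := by positivity
  push_cast [Int.natCast_natAbs]
  rw [h14] at b3 ⊢
  nlinarith

theorem norm_prog (hc : c = 1 ∨ c = 3) (hA : Odd A) : ∃ C : ℕ, ∀ k : ℕ, 4 ≤ k → ∀ a b : ℤ, Odd a →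
    b ≡ a [ZMOD c] → ∀ f ∈ Sp c {j | j ≤ 0 ∧ j ≡ a [ZMOD (8 * c)]}, f.order < 0 →
      ∀ (T : Finset ℤ) (M : ℕ), (∀ n < 0, f.coeff n ≠ 0 → n ∈ T ∧ -(M : ℤ) ≤ n) →
        ∑ r ∈ cl k 3 a, (cmp k r (cA (c * A) b f)).order ≤ C * (8 ^ k + T.card * M) := by
  classical
  obtain ⟨D, hD, hD0, hD'⟩ := ex_D hc hA
  obtain ⟨ω, hω⟩ := exists_root (n := c * A)
    (Odd.mul (by rcases hc with rfl | rfl <;> decide) hA)
  obtain ⟨F, mF⟩ : ∃ F : Finset (Fin A → ℕ × Kbˣ × ℕ),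
      ∀ ν, ν ∈ F ↔ ∀ j, Node c A (ν j).1 (ν j).2.1 (ν j).2.2 :=
    ⟨Fintype.piFinset fun _ => (node_finite hc hA).toFinset, fun ν => by
      simp only [Fintype.mem_piFinset, Set.Finite.mem_toFinset, Set.mem_ofPred_eq]⟩
  refine ⟨F.card * (5 * D.order.natAbs + A ^ 3), fun k hk a b ha hb f hf h0 T M hT => ?_⟩
  set w : Fin A → Kb := fun j => (((ω ^ (j : ℕ)) ^ (-b) : Kbˣ) : Kb) with hw
  set P := ((F ×ˢ Ico (0 : ℤ) (2 ^ k)).image fun q => cmpO k q.2 (normY w f q.1)).filter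
    fun p => p ≠ 0 with hP
  have mP : ∀ p, p ∈ P ↔ (∃ ν ρ, (∀ j, Node c A (ν j).1 (ν j).2.1 (ν j).2.2) ∧
      ρ ∈ Ico (0 : ℤ) (2 ^ k) ∧ cmpO k ρ (normY w f ν) = p) ∧ p ≠ 0 := fun p => by
    simp only [hP, mem_filter, mem_image, mem_product, mF, Prod.exists, and_assoc]
  have cP : (P.card : ℤ) ≤ F.card * 2 ^ k := by
    have := (card_filter_le _ fun p : LO => p ≠ 0).trans
      (card_image_le (s := F ×ˢ Ico (0 : ℤ) (2 ^ k)) (f := fun q => cmpO k q.2 (normY w f q.1)))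
    rw [card_product, Int.card_Ico, sub_zero, show (2 : ℤ) ^ k = (2 ^ k : ℕ) by simp,
      Int.toNat_natCast] at this
    exact_mod_cast this
  clear_value P
  have hE : D ^ (5 * 4 ^ k) ≠ 0 := pow_ne_zero _ hD0
  have n0 : ∀ p ∈ P, D ^ (5 * 4 ^ k) * p ≠ 0 := fun p hp => mul_ne_zero hE ((mP p).1 hp).2
  have hm : ∀ p ∈ P, p ∈ NN c A ∧ IsIntegral (AO c A) (D ^ (5 * 4 ^ k) * p) := fun p hp => by
    obtain ⟨⟨ν, ρ, h1, -, rfl⟩, -⟩ := (mP p).1 hp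
    exact norm_mem hc hA hD hD' k hf w h1 ρ
  have h3 := order_fixedO hc hA (x := ∏ p ∈ P, D ^ (5 * 4 ^ k) * p)
    (prod_mem fun p hp => mul_mem (pow_mem (FO_le (AO_le hD)) _) (hm p hp).1)
    (IsIntegral.prod _ fun p hp => (hm p hp).2) (prod_ne_zero_iff.2 n0) fun g => by
      have h1 : ∀ p ∈ P, ∃ p', p' ∈ P ∧ RelG g p p' := fun p hp => by
        obtain ⟨⟨ν, ρ, h1, -, rfl⟩, h2⟩ := (mP p).1 hp
        obtain ⟨ν', ρ', h3, h4, h5⟩ := norm_act hc hA k hf w h1 ρ g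
        exact ⟨_, (mP _).2 ⟨⟨ν', ρ', h3, h4, rfl⟩, h5.ne_zero h2⟩, h5⟩
      choose! φ h1 h2 using h1
      have h4 := relG_prod P fun p hp => ((relG_FO g (AO_le hD)).pow (5 * 4 ^ k)).mul (h2 p hp)
      have h6 : Set.InjOn φ P := fun p hp q hq h => (h2 p hp).inj (h ▸ h2 q hq)
      have h7 : P.image φ = P :=
        eq_of_subset_of_card_le (image_subset_iff.2 h1) (card_image_of_injOn h6).ge
      have h8 : ∏ p ∈ P, D ^ (5 * 4 ^ k) * p = ∏ p ∈ P, D ^ (5 * 4 ^ k) * φ p := by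
        conv_lhs => rw [← h7]
        rw [prod_image h6]
      rwa [← h8] at h4
  rw [norm_order_prod _ n0, sum_congr rfl fun p hp => HahnSeries.order_mul hE ((mP p).1 hp).2,
    sum_add_distrib, sum_const, HahnSeries.order_pow, nsmul_eq_mul, nsmul_eq_mul] at h3
  have hs : ∀ n, f.coeff n ≠ 0 → n ≡ b [ZMOD c] := fun n hn => by
    obtain ⟨j, ⟨-, hj⟩, -, hj'⟩ := supp_Sp hc hf hn
    exact ((hj'.trans hj).of_dvd (dvd_mul_left _ _)).trans hb.symm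
  set τ : ℤ → LO := fun r => ph 1 1 (cmp k r (cA (c * A) b f)) with hτ
  have e1 : ∀ r, cmpO k r (normY w f fun j => (A, ω ^ (j : ℕ), 1)) = τ r := fun r => by
    have h1 := cmpO_ph k r 1 odd_one (cA (c * A) b f)
    rw [Nat.cast_one, one_mul, part_eq hc hA hω hs, sum_range] at h1
    exact h1
  have t0 : ∀ r ∈ cl k 3 a, τ r ≠ 0 := fun r hr =>
    (map_ne_zero _).2 (part_ne hc hA hk ha hb hf h0 r hr)
  have t1 : ∀ r ∈ cl k 3 a, τ r ∈ P := fun r hr =>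
    (mP _).2 ⟨⟨_, r, fun j => ⟨dvd_rfl, 1, one_dvd _, by simp [Nat.div_self hA.pos], by
      rw [Nat.div_one, ← pow_mul, mul_comm, pow_mul, hω.pow_eq_one, one_pow]⟩,
      (mem_filter.1 hr).1, e1 r⟩, t0 r hr⟩
  have t2 : Set.InjOn τ (cl k 3 a) := fun r hr r' hr' h => by
    have h7 : r % 2 ^ k = r' % 2 ^ k :=
      (e1 r ▸ cls_cmpO k r _ : ClsO k r (τ r)).unique
        (h ▸ (e1 r' ▸ cls_cmpO k r' _ : ClsO k r' (τ r'))) (t0 r hr)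
    have h8 := mem_Ico.1 (mem_filter.1 hr).1
    have h9 := mem_Ico.1 (mem_filter.1 hr').1
    rwa [Int.emod_eq_of_lt h8.1 h8.2, Int.emod_eq_of_lt h9.1 h9.2] at h7
  have e2 : ∑ r ∈ cl k 3 a, (cmp k r (cA (c * A) b f)).order =
      ∑ p ∈ (cl k 3 a).image τ, p.order := by
    rw [sum_image t2]
    exact sum_congr rfl fun r hr => (norm_order_ph (part_ne hc hA hk ha hb hf h0 r hr)).symm
  have e3 := sum_sdiff (f := fun p : LO => p.order) (image_subset_iff.2 t1)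
  set R := (P \ (cl k 3 a).image τ).filter fun p => p.order < 0 with hR
  have r1 : ∀ p ∈ R, -((A : ℤ) ^ 2 * M) ≤ p.order ∧ p ∈ (F ×ˢ (univ : Finset (Fin A)) ×ˢ T).image
      fun q => cmpO k ((q.1 q.2.1).2.2 * q.2.2) (normY w f q.1) := fun p hp => by
    obtain ⟨h1, h2⟩ := mem_filter.1 hp
    obtain ⟨⟨ν, ρ, h4, -, rfl⟩, -⟩ := (mP p).1 (mem_sdiff.1 h1).1
    obtain ⟨h5, j, m, h6, h7⟩ := norm_neg_order hA w h4 hT h2
    exact ⟨h5, mem_image.2 ⟨(ν, j, m), mem_product.2 ⟨(mF ν).2 h4,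
      mem_product.2 ⟨mem_univ _, h6⟩⟩, h7⟩⟩
  have r2 : (R.card : ℤ) ≤ F.card * (A * T.card) := by
    have := (card_le_card fun p hp => (r1 p hp).2).trans card_image_le
    rw [card_product, card_product, card_univ, Fintype.card_fin] at this
    exact_mod_cast this
  have r3 : R.card * -((A : ℤ) ^ 2 * M) ≤ ∑ p ∈ P \ (cl k 3 a).image τ, p.order := by
    rw [← sum_filter_add_sum_filter_not (P \ (cl k 3 a).image τ) fun p => p.order < 0,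
      ← nsmul_eq_mul]
    exact le_add_of_le_of_nonneg (card_nsmul_le_sum _ _ _ fun p hp => (r1 p hp).1)
      (sum_nonneg fun p hp => not_lt.1 (mem_filter.1 hp).2)
  rw [e2]
  exact norm_arith cP r2 (by linarith)

end Pool.Agent.Lib.MP_a3366f_nt.Quad.Prog
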