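import Mathlib
import Pool.Agent.Lib.MP_a3366f_nt.Pr.Norm

/-!
The count of odd and even values in an arbitrary arithmetic progression.
-/

open Finset

namespace Pool.Agent.Lib.MP_a3366f_nt.Quad.Prog

open Ker Zt

variable {c A : ℕ}

/-- The cofactors `j ≤ J` for which `p * j` gives an index with the prescribed parity. -/
noncomputable def countJs (c t s M B ρ J p : ℕ) : Finset ℕ :=
  open Classical in
  (Icc 1 J).filter fun j => ∃ n, 8 * c * n = p * j + s ∧ n ≡ B [MOD M] ∧ pt t n % 2 = ρ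

theorem count_index (hc : c = 1 ∨ c = 3) (hA : Odd A) {t s e B p j : ℕ} (ht : c * t = 3 * s)
    (hp : p ≡ 1 [MOD 8 * c * (2 ^ e * A)]) (h1 : (j : ℤ) ≡ 8 * c * B - s [ZMOD (c * A : ℕ)])
    (h2 : (j : ℤ) ≡ 8 * c * B - s [ZMOD 2 ^ (e + 3)]) :
    ∃ n, 8 * c * n = p * j + s ∧ n ≡ B [MOD 2 ^ e * A] ∧
      (S c ^ (-(s : ℤ))).coeff (p * j) = pt t n := by
  have hco : IsCoprime ((2 : ℤ) ^ (e + 3)) ((c * A : ℕ) : ℤ) := by
    refine IsCoprime.pow_left ?_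
    have h3 : Odd (c * A) := Odd.mul (by rcases hc with rfl | rfl <;> decide) hA
    exact_mod_cast Nat.isCoprime_iff_coprime.2 (Nat.coprime_two_left.2 h3)
  obtain ⟨u, hu⟩ := (Int.natCast_modEq_iff.2 hp).symm.dvd
  obtain ⟨w, hw⟩ := hco.mul_dvd h2.symm.dvd h1.symm.dvd
  push_cast at hu hw
  obtain ⟨n, hn⟩ : 8 * c ∣ p * j + s := Int.natCast_dvd_natCast.1
    ⟨B + 2 ^ e * A * (u * j + w), by push_cast; linear_combination j * hu + hw⟩
  have hn' : (p : ℤ) * j + s = 8 * c * n := by exact_mod_cast hn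
  refine ⟨n, hn.symm, Int.natCast_modEq_iff.1 ?_, ?_⟩
  · push_cast
    refine Int.modEq_iff_dvd.2 ⟨-(u * j + w), ?_⟩
    refine mul_left_cancel₀ (show (8 * c : ℤ) ≠ 0 by omega) ?_
    linear_combination hn' - j * hu - hw
  · rw [← coeff_S_neg hc ht, ← hn', add_sub_cancel_right]

theorem count_pair (hc : c = 1 ∨ c = 3) (hA : Odd A) {C : ℕ}
    (hC : ∀ k : ℕ, 4 ≤ k → ∀ a b : ℤ, Odd a →
      b ≡ a [ZMOD c] → ∀ f ∈ Sp c {j | j ≤ 0 ∧ j ≡ a [ZMOD (8 * c)]}, f.order < 0 →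
      ∀ (T : Finset ℤ) (M : ℕ), (∀ n < 0, f.coeff n ≠ 0 → n ∈ T ∧ -(M : ℤ) ≤ n) →
        ∑ r ∈ cl k 3 a, (cmp k r (cA (c * A) b f)).order ≤ C * (8 ^ k + T.card * M))
    {t s e B ρ k N J p p' : ℕ} (ht : c * t = 3 * s)
    (hs : Odd s) (hρ : ρ < 2) (hk : e + 4 ≤ k) (hp : p.Prime) (hp' : p'.Prime) (hne : p ≠ p')
    (h1 : p ≡ 1 [MOD 8 * c * (2 ^ e * A)]) (h1' : p' ≡ 1 [MOD 8 * c * (2 ^ e * A)]) (h2 : s < p)
    (h2' : s < p') (h3 : J < p) (h3' : J < p') (h4 : p ≤ N) (h4' : p' ≤ N) :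
    ∃ m : ℕ, (cl k (e + 3) (8 * c * B - s)).card ≤ 2 * s +
      ((countJs c t s (2 ^ e * A) B ρ J p).card + (countJs c t s (2 ^ e * A) B ρ J p').card) + m ∧
      m * J ≤ (C + 1) * (8 ^ k + 2 * s * (s * N)) := by
  classical
  set σ := S c ^ (-(s : ℤ)) with hσ
  have hz : ∀ n : ℤ, n < -s → σ.coeff n = 0 := fun n hn =>
    by_contra fun h => absurd (supp_S_zpow hc h).1 (not_le.2 hn)
  have hmem : ∀ q : ℕ, q.Prime → q ≡ 1 [MOD 8 * c * (2 ^ e * A)] →
      TL q σ ∈ Sp c {j | j ≤ 0 ∧ j ≡ -s [ZMOD (8 * c)]} := fun q hq h => by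
    have h5 : q ≡ 1 [MOD 8 * c] := h.of_mul_right _
    refine Submodule.span_mono (Set.image_mono ?_) (stab_class hc hq ?_ (-(s : ℤ)))
    · rintro j ⟨h6, h7, -⟩
      refine ⟨by omega, h7.trans ?_⟩
      simpa using (Int.natCast_modEq_iff.2 h5).mul_right (-(s : ℤ))
    · have h6 : q ≡ 1 [MOD 2 * c] := h5.of_dvd ⟨4, by ring⟩
      rw [Nat.Coprime, h6.gcd_eq, Nat.gcd_one_left]
  have hneg : ∀ q : ℕ, q.Prime → s < q → ∀ n : ℤ, n < 0 → (TL q σ).coeff n ≠ 0 →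
      ∃ m ∈ Ico (-(s : ℤ)) 0, q * m = n := fun q hq h n hn h5 => by
    have h6 : (s : ℤ) < q := by exact_mod_cast h
    rw [coeff_TL_prime hq, hz _ (by nlinarith), zero_add] at h5
    split_ifs at h5 with h7
    · obtain ⟨m, rfl⟩ := h7
      rw [Int.mul_ediv_cancel_left _ (by omega)] at h5
      exact ⟨m, mem_Ico.2 ⟨(supp_S_zpow hc h5).1, by nlinarith⟩, rfl⟩
    · exact absurd rfl h5
  set f := TL p σ + TL p' σ with hf
  have hfm : f ∈ Sp c {j | j ≤ 0 ∧ j ≡ -s [ZMOD (8 * c)]} := add_mem (hmem p hp h1) (hmem p' hp' h1')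
  have hs0 : (0 : ℤ) < s := by exact_mod_cast hs.pos
  have hp0 : (s : ℤ) < p := by exact_mod_cast h2
  have hp0' : (s : ℤ) < p' := by exact_mod_cast h2'
  have hf0 : f.coeff (p * -s) ≠ 0 := fun h5 => by
    have h6 : (TL p' σ).coeff (p * -s) = 0 := by
      by_contra h6
      obtain ⟨m, -, hm⟩ := hneg p' hp' h2' _ (by nlinarith) h6
      have h7 : p' ∣ p * s := Int.natCast_dvd_natCast.1 ⟨-m, by push_cast; linear_combination hm⟩
      rcases (Nat.Prime.dvd_mul hp').1 h7 with h8 | h8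
      · exact hne ((Nat.prime_dvd_prime_iff_eq hp' hp).1 h8).symm
      · exact absurd (Nat.le_of_dvd hs.pos h8) (not_le.2 h2')
    have h7 : (2 : ℤ) ≤ p := by omega
    rw [hf, HahnSeries.coeff_add, h6, add_zero, coeff_TL_prime hp,
      hz _ (by nlinarith [mul_pos hs0 (show (0 : ℤ) < p * p - 1 by nlinarith)]), zero_add,
      if_pos (dvd_mul_right _ _), Int.mul_ediv_cancel_left _ (by omega), coeff_S_zpow_self hc] at h5
    exact one_ne_zero h5
  have hf1 : f.order < 0 := (HahnSeries.order_le_of_coeff_ne_zero hf0).trans_lt (by nlinarith)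
  have hodd : Odd (-(s : ℤ)) := by simpa using hs
  have hb : 8 * (c : ℤ) * B - s ≡ -s [ZMOD c] := Int.modEq_iff_dvd.2 ⟨-(8 * B), by ring⟩
  set Q := (Ico (-(s : ℤ)) 0).image (fun m => (p : ℤ) * m) ∪
      (Ico (-(s : ℤ)) 0).image (fun m => (p' : ℤ) * m) with hQ
  have hQc : Q.card ≤ 2 * s := (card_union_le _ _).trans
    ((add_le_add card_image_le card_image_le).trans (by simp [two_mul]))
  have hQm : ∀ n < 0, f.coeff n ≠ 0 → n ∈ Q ∧ -((s * N : ℕ) : ℤ) ≤ n := fun n h h0 => by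
    have h12 : (p : ℤ) ≤ N := by exact_mod_cast h4
    have h13 : (p' : ℤ) ≤ N := by exact_mod_cast h4'
    have h9 : n ∈ Q := by
      by_cases h10 : (TL p σ).coeff n = 0
      · refine mem_union_right _ (mem_image.2 (hneg p' hp' h2' _ h fun h11 => h0 ?_))
        rw [hf, HahnSeries.coeff_add, h10, h11, add_zero]
      · exact mem_union_left _ (mem_image.2 (hneg p hp h2 _ h h10))
    refine ⟨h9, ?_⟩
    push_cast
    rcases mem_union.1 h9 with h14 | h14 <;>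
      obtain ⟨m, hm, h15⟩ := mem_image.1 h14 <;> rw [mem_Ico] at hm <;> nlinarith
  have h5 := part_ne hc hA (k := k) (by omega) hodd hb hfm hf1
  have h6 := hC k (by omega) _ _ hodd hb f hfm hf1 Q (s * N) hQm
  set T := cl k 3 (-s) with hT
  set o : ℤ → ℤ := fun r => (cmp k r (cA (c * A) (8 * c * B - s) f)).order with ho
  have h7' : ∀ r ∈ T, (f.coeff (o r) ≠ 0 ∧ o r ≡ r [ZMOD 2 ^ k]) ∧
      o r ≡ 8 * c * B - s [ZMOD (c * A : ℕ)] := fun r hr => by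
    have h8 := mt HahnSeries.coeff_order_eq_zero.1 (h5 r hr)
    have h9 := cls_cmp k r _ _ h8
    rw [coeff_cmp, if_pos h9, coeff_cA] at h8
    split_ifs at h8 with h10
    · exact ⟨⟨h8, h9⟩, h10⟩
    · exact absurd rfl h8
  have h7 := fun r hr => (h7' r hr).1
  have h8 : ∀ r ∈ T, ∀ r' ∈ T, o r = o r' → r = r' := fun r hr r' hr' h => by
    have h9 : r % 2 ^ k = r' % 2 ^ k := (h7 r hr).2.symm.trans (h ▸ (h7 r' hr').2)
    have h10 := mem_Ico.1 (mem_filter.1 hr).1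
    have h11 := mem_Ico.1 (mem_filter.1 hr').1
    rwa [Int.emod_eq_of_lt h10.1 h10.2, Int.emod_eq_of_lt h11.1 h11.2] at h9
  have h10 : (T.filter fun r => o r < 0).card ≤ 2 * s :=
    (card_le_card_of_injOn o
      (fun r hr => (hQm _ (mem_filter.1 hr).2 (h7 r (mem_filter.1 hr).1).1).1)
      fun r hr r' hr' => h8 r (mem_filter.1 hr).1 r' (mem_filter.1 hr').1).trans hQc
  have h11 : ∀ r ∈ T, -((s : ℤ) * N) ≤ o r := fun r hr => by
    by_cases h : o r < 0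
    · exact_mod_cast (hQm _ h (h7 r hr).1).2
    · nlinarith
  have hsub : cl k (e + 3) (8 * c * B - s) ⊆ T := fun r hr => mem_filter.2 ⟨(mem_filter.1 hr).1,
    ((mem_filter.1 hr).2.of_dvd (pow_dvd_pow 2 (by omega))).trans
      (Int.modEq_iff_dvd.2 ⟨-(c * B), by ring⟩)⟩
  refine ⟨(T.filter fun r => J < o r).card, ?_, ?_⟩
  · have h12 : ((cl k (e + 3) (8 * c * B - s)).filter fun r => 0 ≤ o r ∧ o r ≤ J).card ≤
        (countJs c t s (2 ^ e * A) B ρ J p ∪ countJs c t s (2 ^ e * A) B ρ J p').card := by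
      refine card_le_card_of_injOn (fun r => (o r).toNat) (fun r hr => ?_) fun r hr r' hr' h => ?_
      · obtain ⟨hr, h12, h13⟩ := mem_filter.1 hr
        obtain ⟨⟨h14, h15⟩, h21⟩ := h7' r (hsub hr)
        obtain ⟨j, hj⟩ := Int.eq_ofNat_of_zero_le h12
        obtain ⟨i, ⟨-, hi⟩, -, hi'⟩ := supp_Sp hc hfm h14
        simp only [hj, Int.toNat_natCast] at h13 h14 h15 h21 hi' ⊢
        have h16 := hi'.trans hi
        have h17 := (h15.of_dvd (pow_dvd_pow 2 (show e + 3 ≤ k by omega))).trans (mem_filter.1 hr).2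
        have h18 : j ∈ Icc 1 J := by
          refine mem_Icc.2 ⟨Nat.pos_of_ne_zero ?_, by exact_mod_cast h13⟩
          rintro rfl
          obtain ⟨u, hu⟩ := (dvd_mul_right 8 _).trans h16.dvd
          rw [Nat.odd_iff] at hs
          omega
        have h19 : ∀ q : ℕ, J < q → ¬ (q : ℤ) ∣ j := fun q hq h =>
          absurd (Nat.le_of_dvd (mem_Icc.1 h18).1 (Int.natCast_dvd_natCast.1 h))
            (not_le.2 ((mem_Icc.1 h18).2.trans_lt hq))
        obtain ⟨n, hn, hnB, hnc⟩ := count_index hc hA ht h1 h21 h17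
        obtain ⟨n', hn', hnB', hnc'⟩ := count_index hc hA ht h1' h21 h17
        rw [hf, HahnSeries.coeff_add, coeff_TL_prime hp, coeff_TL_prime hp', if_neg (h19 p h3),
          if_neg (h19 p' h3'), add_zero, add_zero, hnc, hnc', ← Nat.cast_add,
          Ne, ZMod.natCast_eq_zero_iff] at h14
        by_cases h20 : pt t n % 2 = ρ
        · exact mem_union_left _ (mem_filter.2 ⟨h18, n, hn, hnB, h20⟩)
        · exact mem_union_right _ (mem_filter.2 ⟨h18, n', hn', hnB', by omega⟩)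
      · obtain ⟨hr, h12, -⟩ := mem_filter.1 hr
        obtain ⟨hr', h13, -⟩ := mem_filter.1 hr'
        refine h8 r (hsub hr) r' (hsub hr') ?_
        dsimp only at h
        omega
    have h13 : cl k (e + 3) (8 * c * B - s) ⊆ (T.filter fun r => o r < 0) ∪
        ((cl k (e + 3) (8 * c * B - s)).filter fun r => 0 ≤ o r ∧ o r ≤ J) ∪
        T.filter fun r => J < o r := fun r hr => by
      simp only [mem_union, mem_filter, hr, hsub hr, true_and]
      omega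
    exact (card_le_card h13).trans ((card_union_le _ _).trans (Nat.add_le_add_right
      ((card_union_le _ _).trans (add_le_add h10 (h12.trans (card_union_le _ _)))) _))
  · have h12 : ∑ r ∈ T, ((if (J : ℤ) < o r then (J : ℤ) else 0) -
        if o r < 0 then (s : ℤ) * N else 0) ≤ ∑ r ∈ T, o r := sum_le_sum fun r hr => by
      have := h11 r hr
      split_ifs <;> omega
    rw [sum_sub_distrib, ← sum_filter, ← sum_filter, sum_const, sum_const, nsmul_eq_mul,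
      nsmul_eq_mul] at h12
    have h13 : ((T.filter fun r => o r < 0).card : ℤ) * (s * N) ≤ 2 * s * (s * N) := by
      exact_mod_cast Nat.mul_le_mul_right _ h10
    have h14 : (C : ℤ) * (Q.card * (s * N : ℕ)) ≤ C * (2 * s * (s * N)) := by
      exact_mod_cast Nat.mul_le_mul_left _ (Nat.mul_le_mul_right _ hQc)
    have h15 : (0 : ℤ) < 8 ^ k := by positivity
    zify
    linarith

theorem count_sum {t s M B ρ N J X : ℕ} (hc : 1 ≤ c) (P : Finset ℕ)
    (hP : ∀ p ∈ P, p.Prime ∧ J < p ∧ p ≤ N) (hX : N * J + s < X) :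
    ∑ p ∈ P, (countJs c t s M B ρ J p).card ≤
      ((range X).filter fun n => n ≡ B [MOD M] ∧ pt t n % 2 = ρ).card := by
  classical
  rw [← card_sigma]
  have key : ∀ x ∈ P.sigma (countJs c t s M B ρ J), 1 ≤ x.2 ∧ x.2 ≤ J ∧ ∃ n, 8 * c * n = x.1 * x.2 + s ∧
      (x.1 * x.2 + s) / (8 * c) = n ∧ n ≡ B [MOD M] ∧ pt t n % 2 = ρ := fun x hx => by
    obtain ⟨h1, n, h2, h3⟩ := mem_filter.1 (mem_sigma.1 hx).2
    exact ⟨(mem_Icc.1 h1).1, (mem_Icc.1 h1).2, n, h2,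
      by rw [← h2, Nat.mul_div_cancel_left _ (by omega)], h3⟩
  refine card_le_card_of_injOn (fun x => (x.1 * x.2 + s) / (8 * c)) (fun x hx => ?_)
    fun x hx y hy h => ?_
  · obtain ⟨-, h1, n, h2, h3, h4⟩ := key x hx
    have h5 := Nat.mul_le_mul (hP _ (mem_sigma.1 hx).1).2.2 h1
    have h6 : n ≤ 8 * c * n := Nat.le_mul_of_pos_left _ (by omega)
    exact mem_filter.2 ⟨mem_range.2 (by dsimp only; omega), by dsimp only; rw [h3]; exact h4⟩
  · obtain ⟨h1, -, n, h2, h3, -⟩ := key x hx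
    obtain ⟨h1', h4, n', h2', h3', -⟩ := key y hy
    obtain ⟨hp, h5, -⟩ := hP _ (mem_sigma.1 hx).1
    obtain ⟨hp', -, -⟩ := hP _ (mem_sigma.1 hy).1
    obtain ⟨p, j⟩ := x
    obtain ⟨p', j'⟩ := y
    dsimp only at *
    have h6 : p * j = p' * j' := by rw [h3, h3'] at h; subst h; omega
    obtain rfl : p = p' := by
      rcases (Nat.Prime.dvd_mul hp).1 ⟨j, h6.symm⟩ with h7 | h7
      · exact (Nat.prime_dvd_prime_iff_eq hp hp').1 h7
      · exact absurd (Nat.le_of_dvd h1' h7) (by omega)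
    rw [Nat.eq_of_mul_eq_mul_left hp.pos h6]

theorem count_scale' (hc : c = 1 ∨ c = 3) (hA : Odd A) {t s : ℕ} (ht : c * t = 3 * s)
    (hs : Odd s) : ∃ K : ℕ, s + 1 ≤ K ∧ ∀ e B ρ m : ℕ, ρ < 2 → 2 * s ≤ 2 ^ m → ∀ P : Finset ℕ,
      (∀ p ∈ P, p.Prime ∧ p ≡ 1 [MOD 8 * c * (2 ^ e * A)] ∧ s < p ∧
        2 ^ (e + 5) * K * 4 ^ (e + 5 + m) < p ∧ p ≤ 8 ^ (e + 5 + m)) →
      (P.card - 1) * 2 ^ m ≤ ((range ((2 ^ (e + 5) * K + s + 1) * 32 ^ (e + 5 + m))).filter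
        fun n => n ≡ B [MOD 2 ^ e * A] ∧ pt t n % 2 = ρ).card := by
  classical
  obtain ⟨C, hC⟩ := norm_prog hc hA
  refine ⟨(C + 1) * (1 + 2 * s * s), ?_, fun e B ρ m hρ hm P hP => ?_⟩
  · have h1 : 1 + 2 * s * s ≤ (C + 1) * (1 + 2 * s * s) := Nat.le_mul_of_pos_left _ (by omega)
    nlinarith [Nat.le_mul_self s]
  set J := 2 ^ (e + 5) * ((C + 1) * (1 + 2 * s * s)) * 4 ^ (e + 5 + m) with hJ
  have h1 : (P.filter fun p => ¬ 2 ^ m ≤ (countJs c t s (2 ^ e * A) B ρ J p).card).card ≤ 1 := by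
    refine card_le_one.2 fun p hp p' hp' => by_contra fun hne => ?_
    obtain ⟨hp, h2⟩ := mem_filter.1 hp
    obtain ⟨hp', h2'⟩ := mem_filter.1 hp'
    obtain ⟨g1, g2, g3, g4, g5⟩ := hP p hp
    obtain ⟨g1', g2', g3', g4', g5'⟩ := hP p' hp'
    obtain ⟨u, h3, h4⟩ := count_pair hc hA hC (B := B) (k := e + 5 + m) ht hs hρ (by omega) g1 g1' hne
      g2 g2' g3 g3' g4 g4' g5 g5'
    have h5 := le_card_cl (e + 3) (m + 2) (8 * c * B - s)
    rw [show e + 3 + (m + 2) = e + 5 + m by ring, pow_add] at h5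
    have h6 : u ≤ 2 ^ m := by
      refine Nat.le_of_mul_le_mul_right (h4.trans (le_of_eq ?_)) (show 0 < J by positivity)
      rw [hJ, show (8 : ℕ) = 2 * 4 by norm_num, mul_pow]
      ring
    omega
  have h2 := card_filter_add_card_filter_not (s := P) fun p => 2 ^ m ≤ (countJs c t s (2 ^ e * A) B ρ J p).card
  refine le_trans ?_ (count_sum (N := 8 ^ (e + 5 + m)) (J := J) (s := s) (c := c) (by omega)
    (P.filter fun p => 2 ^ m ≤ (countJs c t s (2 ^ e * A) B ρ J p).card) (fun p hp => ?_) ?_)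
  · refine le_trans ?_ (card_nsmul_le_sum _ _ (2 ^ m) fun p hp => (mem_filter.1 hp).2)
    exact Nat.mul_le_mul_right _ (by omega)
  · obtain ⟨g1, -, -, g4, g5⟩ := hP p (mem_filter.1 hp).1
    exact ⟨g1, g4, g5⟩
  · have h3 : s + 1 ≤ (s + 1) * 32 ^ (e + 5 + m) := Nat.le_mul_of_pos_right _ (by positivity)
    have h4 : 8 ^ (e + 5 + m) * J = 2 ^ (e + 5) * ((C + 1) * (1 + 2 * s * s)) * 32 ^ (e + 5 + m) := by
      rw [hJ, show (32 : ℕ) = 8 * 4 by norm_num, mul_pow]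
      ring
    rw [add_assoc _ s, add_mul]
    omega

theorem count_prog {t ρ : ℕ} (ht : Odd t) (hρ : ρ < 2) {M : ℕ} (hM : M ≠ 0) (B : ℕ) :
    ∃ κ : ℝ, 0 < κ ∧ ∃ X₀ : ℕ, ∀ X : ℕ, X₀ ≤ X → κ * ((X : ℝ) ^ (4 / 5 : ℝ) / Real.log X) ≤
      (((range X).filter fun n => n ≡ B [MOD M] ∧ pt t n % 2 = ρ).card : ℝ) := by
  obtain ⟨e, A, hA, rfl⟩ := Nat.exists_eq_two_pow_mul_odd hM
  obtain ⟨c, s, hc, hts, hs⟩ : ∃ c s : ℕ, (c = 1 ∨ c = 3) ∧ c * t = 3 * s ∧ Odd s := by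
    by_cases h : 3 ∣ t
    · obtain ⟨s, rfl⟩ := h
      exact ⟨1, s, Or.inl rfl, by ring, (Nat.odd_mul.1 ht).2⟩
    · exact ⟨3, t, Or.inr rfl, rfl, ht⟩
  obtain ⟨T, N₀, hT, h1⟩ := primes_class (8 * c * (2 ^ e * A)) 1
    (by rcases hc with rfl | rfl <;> positivity) (Nat.coprime_one_left _)
  obtain ⟨K, hK, hK'⟩ := count_scale' hc hA hts hs
  obtain ⟨C, hC⟩ : ∃ C, C = 2 ^ (e + 5) * K := ⟨_, rfl⟩
  have hC1 : s + 1 ≤ C := hK.trans (hC ▸ Nat.le_mul_of_pos_left _ (by positivity))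
  have hT0 : (0 : ℝ) < T := by exact_mod_cast hT
  refine scale_main (1 / (6 * T * 2 ^ (e + 5))) (by positivity) (C + s + 1)
    (e + 5 + (2 * s + N₀ + (C + 6) * T)) (by omega)
    (fun X => ((range X).filter fun n => n ≡ B [MOD 2 ^ e * A] ∧ pt t n % 2 = ρ).card)
    (fun X Y hXY => card_le_card (filter_subset_filter _ (range_mono hXY))) fun k hk => ?_
  obtain ⟨m, rfl⟩ := Nat.exists_eq_add_of_le (show e + 5 ≤ k by omega)
  have hm : m < 2 ^ m := Nat.lt_two_pow_self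
  obtain ⟨k, hk'⟩ : ∃ k, k = e + 5 + m := ⟨_, rfl⟩
  have h2 : k < 2 ^ k := Nat.lt_two_pow_self
  have h3 : (8 : ℕ) ^ k = 2 ^ k * 4 ^ k := mul_pow 2 4 k
  have h4 : 2 ^ k ≤ 4 ^ k := Nat.pow_le_pow_left (by norm_num) _
  have h5 : (C + 6) * T ≤ 2 ^ k := by omega
  have h6 : C * 4 ^ k ≤ 8 ^ k / T := by
    rw [Nat.le_div_iff_mul_le hT, h3]
    nlinarith
  have h7 := hK' e B ρ m hρ (by omega)
    ((Ioc (8 ^ k / T) (8 ^ k)).filter fun p => p.Prime ∧ p ≡ 1 [MOD 8 * c * (2 ^ e * A)]) fun p hp => by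
      obtain ⟨g1, g2, g3⟩ := mem_filter.1 hp
      rw [mem_Ioc] at g1
      have : C ≤ C * 4 ^ k := Nat.le_mul_of_pos_right _ (by positivity)
      rw [← hC, ← hk']
      exact ⟨g2, g3, by omega, by omega, g1.2⟩
  have h8 := h1 (8 ^ k) (by nlinarith)
  rw [← hC] at h7
  refine le_trans ?_ (Nat.cast_le.2 h7)
  generalize ((Ioc (8 ^ k / T) (8 ^ k)).filter
    fun p => p.Prime ∧ p ≡ 1 [MOD 8 * c * (2 ^ e * A)]).card = u at h8 ⊢
  have hk0 : (0 : ℝ) < k := by exact_mod_cast (show 0 < k by omega)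
  have h9 : (8 : ℝ) ^ k / (T * (3 * k)) ≤ u := by
    refine le_trans ?_ h8
    push_cast
    rw [Real.log_pow]
    have g1 : Real.log 8 ≤ 3 := by
      rw [show (8 : ℝ) = 2 ^ 3 by norm_num, Real.log_pow]
      push_cast
      linarith [Real.log_two_lt_d9]
    have g2 : 0 < Real.log 8 := Real.log_pos (by norm_num)
    rw [mul_comm 3]
    gcongr
  have h10 : (2 : ℝ) ≤ 8 ^ k / (T * (3 * k)) := by
    rw [le_div_iff₀ (by positivity)]
    have g1 : 6 * T * k ≤ 2 ^ k * 4 ^ k := Nat.mul_le_mul (by nlinarith) (by omega)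
    exact_mod_cast (show 2 * (T * (3 * k)) ≤ 8 ^ k by nlinarith)
  have h11 : 1 ≤ u := by exact_mod_cast (show (1 : ℝ) ≤ u by linarith)
  rw [← hk', Nat.cast_mul, Nat.cast_sub h11]
  have h12 : (16 : ℝ) ^ k = 8 ^ k * (2 ^ (e + 5) * 2 ^ m) := by
    rw [← pow_add, ← hk', ← mul_pow]; norm_num
  calc 1 / (6 * T * 2 ^ (e + 5)) * ((16 : ℝ) ^ k / k) = 8 ^ k / (T * (3 * k)) / 2 * 2 ^ m := by
        rw [h12]; field_simp; norm_num
    _ ≤ _ := by
        push_cast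
        gcongr
        linarith

end Pool.Agent.Lib.MP_a3366f_nt.Quad.Prog
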